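import Pool.Agent.J6H94.TSp.Lin

/-!
# Existence of bipartite multigraphs with boundary expansion two
-/

set_option autoImplicit false
set_option linter.unusedSectionVars false

open Finset

namespace Pool.Agent.J6H94.TSp

theorem pow_self_le (h : ℕ) : (h : ℝ) ^ h ≤ 3 ^ h * (h.factorial : ℝ) := by
  have h1 : (h : ℝ) ^ h / (h.factorial : ℝ) ≤ Real.exp h :=
    Real.pow_div_factorial_le_exp (h : ℝ) (Nat.cast_nonneg h) h
  have h2 : Real.exp h ≤ 3 ^ h := by
    have h3 : Real.exp (h : ℝ) = Real.exp 1 ^ h := by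
      rw [← Real.exp_nat_mul, mul_one]
    rw [h3]
    refine pow_le_pow_left₀ (Real.exp_pos 1).le ?_ h
    have := Real.exp_one_lt_d9
    linarith
  have h4 : (0 : ℝ) < (h.factorial : ℝ) := by exact_mod_cast Nat.factorial_pos h
  rw [div_le_iff₀ h4] at h1
  exact h1.trans (mul_le_mul_of_nonneg_right h2 h4.le)

theorem choose_mul_pow_le (n h : ℕ) : n.choose h * h ^ h ≤ (3 * n) ^ h := by
  have h1 : n.choose h * h.factorial ≤ n ^ h := by
    rw [mul_comm, ← Nat.descFactorial_eq_factorial_mul_choose]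
    exact Nat.descFactorial_le_pow n h
  have h2 := pow_self_le h
  have h3 : h ^ h ≤ 3 ^ h * h.factorial := by exact_mod_cast h2
  calc n.choose h * h ^ h ≤ n.choose h * (3 ^ h * h.factorial) := Nat.mul_le_mul_left _ h3
    _ = 3 ^ h * (n.choose h * h.factorial) := by ring
    _ ≤ 3 ^ h * n ^ h := Nat.mul_le_mul_left _ h1
    _ = (3 * n) ^ h := (mul_pow 3 n h).symm

theorem sum_lt_of_pow {r T : ℕ} {a : ℕ → ℕ} (hT : 0 < T)
    (h : ∀ u ∈ Icc 1 r, a u * 4 ^ u ≤ T) : 2 * ∑ u ∈ Icc 1 r, a u < T := by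
  have key : ∀ s ≤ r, (∑ u ∈ Icc 1 s, (a u : ℝ)) ≤ T / 3 * (1 - (1 / 4 : ℝ) ^ s) := by
    intro s
    induction s with
    | zero => intro _; simp
    | succ s ih =>
      intro hs
      rw [sum_Icc_succ_top (by omega)]
      have h1 := ih (by omega)
      have h2 := h (s + 1) (mem_Icc.mpr ⟨by omega, hs⟩)
      have h3 : (a (s + 1) : ℝ) * 4 ^ (s + 1) ≤ T := by exact_mod_cast h2
      have h4 : (a (s + 1) : ℝ) ≤ T * (1 / 4 : ℝ) ^ (s + 1) := by
        rw [one_div, inv_pow, ← div_eq_mul_inv, le_div_iff₀ (by positivity)]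
        exact h3
      have h6 : (T : ℝ) * (1 / 4 : ℝ) ^ (s + 1) = (T * (1 / 4 : ℝ) ^ s) * (1 / 4) := by
        rw [pow_succ]; ring
      have h7 : (T : ℝ) / 3 * (1 - (1 / 4 : ℝ) ^ (s + 1)) =
          T / 3 - (T * (1 / 4 : ℝ) ^ s) * (1 / 12) := by
        rw [pow_succ]; ring
      have h8 : (T : ℝ) / 3 * (1 - (1 / 4 : ℝ) ^ s) = T / 3 - (T * (1 / 4 : ℝ) ^ s) * (1 / 3) := by
        ring
      linarith
  have h1 := key r le_rfl
  have hT' : (0 : ℝ) < T := by exact_mod_cast hT
  have h2 : (0 : ℝ) < (T : ℝ) * (1 / 4 : ℝ) ^ r := by positivity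
  have h3 : 2 * (∑ u ∈ Icc 1 r, (a u : ℝ)) < T := by
    have : (T : ℝ) / 3 * (1 - (1 / 4 : ℝ) ^ r) = T / 3 - (T * (1 / 4 : ℝ) ^ r) / 3 := by ring
    linarith
  exact_mod_cast h3

/-- the number of maps which miss a point -/
theorem miss_le {n E : ℕ} (hn : 0 < n) (hE : n * n ≤ E) : 2 * (n * (n - 1) ^ E) ≤ n ^ E := by
  obtain ⟨f, rfl⟩ : ∃ f, E = n * n + f := ⟨E - n * n, by omega⟩
  have h1 : 2 * (n - 1) ^ n ≤ n ^ n := by
    obtain ⟨p, rfl⟩ : ∃ p, n = p + 1 := ⟨n - 1, by omega⟩
    have h2 : p + 1 - 1 = p := by omega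
    rw [h2]
    have h3 : p ^ (p + 1) + (p + 1) * p ^ p ≤ (p + 1) ^ (p + 1) := by
      have h4 := add_pow (p : ℕ) 1 (p + 1)
      rw [sum_range_succ, sum_range_succ] at h4
      simp only [one_pow, mul_one, Nat.choose_self, Nat.cast_one, Nat.cast_id,
        Nat.choose_succ_self_right] at h4
      rw [h4]
      have : p ^ p * (p + 1) = (p + 1) * p ^ p := Nat.mul_comm _ _
      omega
    have h5 : p ^ (p + 1) = p * p ^ p := by rw [pow_succ]; ring
    have h6 : (p + 1) * p ^ p = p * p ^ p + p ^ p := by ring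
    omega
  have h2 : n ≤ 2 ^ (n - 1) := by
    have := Nat.lt_two_pow_self (n := n - 1)
    omega
  have h3 : 2 * n ≤ 2 ^ n := by
    obtain ⟨p, rfl⟩ : ∃ p, n = p + 1 := ⟨n - 1, by omega⟩
    rw [Nat.add_sub_cancel] at h2
    rw [pow_succ]
    omega
  calc 2 * (n * (n - 1) ^ (n * n + f)) = (2 * n) * ((n - 1) ^ (n * n)) * (n - 1) ^ f := by
        rw [pow_add]; ring
    _ ≤ 2 ^ n * ((n - 1) ^ (n * n)) * n ^ f := by
        have h4 : (n - 1) ^ f ≤ n ^ f := Nat.pow_le_pow_left (by omega) f
        gcongr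
    _ = (2 * (n - 1) ^ n) ^ n * n ^ f := by rw [mul_pow, ← pow_mul]
    _ ≤ (n ^ n) ^ n * n ^ f := by gcongr
    _ = n ^ (n * n + f) := by rw [← pow_mul, pow_add]

variable {X Y : Type} [Fintype X] [DecidableEq X] [Fintype Y] [DecidableEq Y] {d : ℕ}

/-- twice the number of neighbours is at most the number of edges plus the size of the boundary -/
theorem two_mul_card_image_le (N : X → Fin d → Y) (B : Finset X) :
    2 * ((B ×ˢ (univ : Finset (Fin d))).image fun p => N p.1 p.2).card
      ≤ B.card * d + (bd N B).card := by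
  classical
  set E := B ×ˢ (univ : Finset (Fin d)) with hE
  set I := E.image fun p => N p.1 p.2 with hI
  have h1 : E.card = ∑ j ∈ I, (E.filter fun p => N p.1 p.2 = j).card :=
    card_eq_sum_card_image (fun p : X × Fin d => N p.1 p.2) E
  have h2 : E.card = B.card * d := by rw [hE, card_product, card_univ, Fintype.card_fin]
  have h3 : (I.filter fun j => j ∈ bd N B).card ≤ (bd N B).card :=
    card_le_card fun j hj => (mem_filter.mp hj).2
  have h4 : 2 * I.card ≤ ∑ j ∈ I, ((E.filter fun p => N p.1 p.2 = j).card +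
      if j ∈ bd N B then 1 else 0) := by
    rw [mul_comm, ← smul_eq_mul, ← sum_const]
    refine sum_le_sum fun j hj => ?_
    have h5 : 0 < (E.filter fun p => N p.1 p.2 = j).card := by
      obtain ⟨p, hp, hpj⟩ := mem_image.mp hj
      exact card_pos.mpr ⟨p, mem_filter.mpr ⟨hp, hpj⟩⟩
    by_cases h6 : j ∈ bd N B
    · rw [if_pos h6]; omega
    · rw [if_neg h6]
      have h7 : (E.filter fun p => N p.1 p.2 = j).card ≠ 1 := by
        intro h8
        exact h6 (mem_filter.mpr ⟨mem_univ _, h8⟩)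
      omega
  rw [sum_add_distrib, ← h1, h2, ← card_filter] at h4
  omega

/-- the number of maps which send `B` into `H` -/
theorem card_into (B : Finset X) (H : Finset Y) :
    (univ.filter fun N : X → Fin d → Y => ∀ x ∈ B, ∀ a, N x a ∈ H).card
      = H.card ^ (d * B.card) * Fintype.card Y ^ (d * (Fintype.card X - B.card)) := by
  classical
  have h1 : (univ.filter fun N : X → Fin d → Y => ∀ x ∈ B, ∀ a, N x a ∈ H)
      = Fintype.piFinset fun x : X => Fintype.piFinset fun _ : Fin d =>
        if x ∈ B then H else univ := by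
    ext N
    rw [mem_filter, Fintype.mem_piFinset]
    constructor
    · rintro ⟨-, h⟩ x
      rw [Fintype.mem_piFinset]
      intro a
      split_ifs with hx
      · exact h x hx a
      · exact mem_univ _
    · intro h
      refine ⟨mem_univ _, fun x hx a => ?_⟩
      have := Fintype.mem_piFinset.mp (h x) a
      rwa [if_pos hx] at this
  rw [h1, Fintype.card_piFinset]
  have h2 : ∀ x : X, (Fintype.piFinset fun _ : Fin d => if x ∈ B then H else univ).card
      = if x ∈ B then H.card ^ d else Fintype.card Y ^ d := by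
    intro x
    rw [Fintype.card_piFinset, prod_const, card_univ, Fintype.card_fin]
    split_ifs <;> simp
  simp_rw [h2]
  rw [prod_ite, prod_const, prod_const]
  have h3 : (univ.filter fun x => x ∈ B) = B := by ext; simp
  have h4 : (univ.filter fun x => x ∉ B).card = Fintype.card X - B.card := by
    have : (univ.filter fun x => x ∉ B) = Bᶜ := by ext; simp
    rw [this, card_compl]
  rw [h3, h4, ← pow_mul, ← pow_mul]

/-- existence of a multigraph with expansion of the boundary -/
theorem exists_expander (X Y : Type) [Fintype X] [DecidableEq X] [Fintype Y] [DecidableEq Y]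
    (e m r : ℕ) (he : 5 ≤ e) (hX : Fintype.card X ≤ m ^ (e - 1)) (hY0 : 0 < Fintype.card Y)
    (hY : 9 * m * ((e + 1) * r) ≤ Fintype.card Y) (hm : 0 < m)
    (hXY : Fintype.card Y * Fintype.card Y ≤ 2 * e * Fintype.card X) :
    ∃ N : X → Fin (2 * e) → Y, Expands N r ∧ ∀ j, ∃ x a, N x a = j := by
  classical
  by_contra hcon
  push Not at hcon
  set n := Fintype.card Y with hn
  -- the sets of bad maps
  set bad : ℕ → Finset (X → Fin (2 * e) → Y) := fun u =>
    (powersetCard u (univ : Finset X)).biUnion fun B =>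
      (powersetCard ((e + 1) * u) (univ : Finset Y)).biUnion fun H =>
        univ.filter fun N : X → Fin (2 * e) → Y => ∀ x ∈ B, ∀ a, N x a ∈ H with hbad
  set miss : Finset (X → Fin (2 * e) → Y) := (univ : Finset Y).biUnion fun j =>
    univ.filter fun N : X → Fin (2 * e) → Y => ∀ x ∈ (univ : Finset X), ∀ a, N x a ∈ univ.erase j
    with hmiss
  have hcover : (univ : Finset (X → Fin (2 * e) → Y)) ⊆ (Icc 1 r).biUnion bad ∪ miss := by
    intro N _
    rw [mem_union]
    by_cases h1 : Expands N r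
    · right
      obtain ⟨j, hj⟩ := hcon N h1
      rw [hmiss]
      refine mem_biUnion.mpr ⟨j, mem_univ j, mem_filter.mpr ⟨mem_univ _, fun x _ a => ?_⟩⟩
      exact mem_erase.mpr ⟨hj x a, mem_univ _⟩
    left
    unfold Expands at h1
    push Not at h1
    obtain ⟨B, hB, hlt⟩ := h1
    have hB0 : 0 < B.card := by
      rcases Nat.eq_zero_or_pos B.card with h | h
      · rw [h] at hlt; simp at hlt
      · exact h
    refine mem_biUnion.mpr ⟨B.card, mem_Icc.mpr ⟨hB0, hB⟩, ?_⟩
    rw [hbad]
    refine mem_biUnion.mpr ⟨B, mem_powersetCard.mpr ⟨subset_univ _, rfl⟩, ?_⟩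
    set I := (B ×ˢ (univ : Finset (Fin (2 * e)))).image fun p => N p.1 p.2 with hI
    have h2 := two_mul_card_image_le N B
    have h3 : I.card ≤ (e + 1) * B.card := by
      have h4 : B.card * (2 * e) + 2 * B.card = 2 * ((e + 1) * B.card) := by ring
      rw [← hI] at h2
      omega
    have h5 : (e + 1) * B.card ≤ (univ : Finset Y).card := by
      rw [card_univ, ← hn]
      have h6 : (e + 1) * B.card ≤ (e + 1) * r := Nat.mul_le_mul_left _ hB
      have h7 : (e + 1) * r ≤ 9 * m * ((e + 1) * r) := Nat.le_mul_of_pos_left _ (by omega)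
      omega
    obtain ⟨H, hIH, -, hH⟩ := exists_subsuperset_card_eq (subset_univ I) h3 h5
    refine mem_biUnion.mpr ⟨H, mem_powersetCard.mpr ⟨subset_univ _, hH⟩, ?_⟩
    refine mem_filter.mpr ⟨mem_univ _, fun x hx a => hIH ?_⟩
    exact mem_image.mpr ⟨(x, a), mem_product.mpr ⟨hx, mem_univ _⟩, rfl⟩
  have hbadcard : ∀ u, (bad u).card ≤ (Fintype.card X).choose u * (n.choose ((e + 1) * u) *
      (((e + 1) * u) ^ (2 * e * u) * n ^ (2 * e * (Fintype.card X - u)))) := by
    intro u
    rw [hbad]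
    refine card_biUnion_le.trans ?_
    refine (sum_le_card_nsmul _ _ (n.choose ((e + 1) * u) *
      (((e + 1) * u) ^ (2 * e * u) * n ^ (2 * e * (Fintype.card X - u)))) ?_).trans ?_
    · intro B hB
      refine card_biUnion_le.trans ?_
      refine (sum_le_card_nsmul _ _
        (((e + 1) * u) ^ (2 * e * u) * n ^ (2 * e * (Fintype.card X - u))) ?_).trans ?_
      · intro H hH
        rw [card_into, (mem_powersetCard.mp hB).2, (mem_powersetCard.mp hH).2]
      · rw [card_powersetCard, card_univ, smul_eq_mul]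
    · rw [card_powersetCard, card_univ, smul_eq_mul]
  have hterm : ∀ u ∈ Icc 1 r, (bad u).card * 4 ^ u ≤ n ^ (2 * e * Fintype.card X) := by
    intro u hu
    rw [mem_Icc] at hu
    rcases Nat.lt_or_ge (Fintype.card X) u with hux | hux
    · have : (bad u).card = 0 := by
        have := hbadcard u
        rw [Nat.choose_eq_zero_of_lt hux, zero_mul] at this
        omega
      rw [this, zero_mul]
      exact Nat.zero_le _
    have hbc := hbadcard u
    obtain ⟨h, hh⟩ : ∃ h, h = (e + 1) * u := ⟨_, rfl⟩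
    rw [← hh] at hbc
    have hhn : 9 * m * h ≤ n := by
      rw [hh]
      refine le_trans ?_ hY
      exact Nat.mul_le_mul_left _ (Nat.mul_le_mul_left _ hu.2)
    -- the main estimate
    have h1 : 4 * Fintype.card X * 3 ^ (e + 1) * h ^ (e - 1) ≤ n ^ (e - 1) := by
      obtain ⟨f, rfl⟩ : ∃ f, e = f + 5 := ⟨e - 5, by omega⟩
      have h2 : f + 5 - 1 = f + 4 := by omega
      rw [h2] at hX ⊢
      calc 4 * Fintype.card X * 3 ^ (f + 5 + 1) * h ^ (f + 4)
          ≤ 4 * m ^ (f + 4) * 3 ^ (f + 5 + 1) * h ^ (f + 4) := by gcongr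
        _ ≤ 3 ^ (f + 2) * m ^ (f + 4) * 3 ^ (f + 5 + 1) * h ^ (f + 4) := by
            have h3 : 4 ≤ 3 ^ (f + 2) := by
              calc 4 ≤ 3 ^ 2 := by norm_num
                _ ≤ 3 ^ (f + 2) := Nat.pow_le_pow_right (by norm_num) (by omega)
            gcongr
        _ = (9 * m * h) ^ (f + 4) := by
            rw [mul_pow (9 * m) h, mul_pow 9 m]
            have : (9 : ℕ) ^ (f + 4) = 3 ^ (f + 2) * 3 ^ (f + 5 + 1) := by
              rw [← pow_add]
              have : (9 : ℕ) = 3 ^ 2 := by norm_num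
              rw [this, ← pow_mul]
              congr 1
              ring
            rw [this]
            ring
        _ ≤ n ^ (f + 4) := Nat.pow_le_pow_left hhn _
    have h2 : (Fintype.card X).choose u ≤ Fintype.card X ^ u := Nat.choose_le_pow _ _
    have h3 : n.choose h * h ^ h ≤ (3 * n) ^ h := choose_mul_pow_le n h
    have h4 : h ^ (2 * e * u) = h ^ h * h ^ ((e - 1) * u) := by
      rw [← pow_add]
      congr 1
      rw [hh, ← add_mul]
      congr 1
      omega
    have h5 : n ^ (2 * e * Fintype.card X) = n ^ (2 * e * u) * n ^ (2 * e * (Fintype.card X - u)) := by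
      rw [← pow_add, ← mul_add]
      congr 2
      omega
    calc (bad u).card * 4 ^ u
        ≤ ((Fintype.card X).choose u * (n.choose h *
          (h ^ (2 * e * u) * n ^ (2 * e * (Fintype.card X - u))))) * 4 ^ u :=
          Nat.mul_le_mul_right _ hbc
      _ = ((Fintype.card X).choose u * (n.choose h * h ^ h) * h ^ ((e - 1) * u) * 4 ^ u) *
          n ^ (2 * e * (Fintype.card X - u)) := by rw [h4]; ring
      _ ≤ (Fintype.card X ^ u * (3 * n) ^ h * h ^ ((e - 1) * u) * 4 ^ u) *
          n ^ (2 * e * (Fintype.card X - u)) := by gcongr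
      _ = ((4 * Fintype.card X * 3 ^ (e + 1) * h ^ (e - 1)) * n ^ (e + 1)) ^ u *
          n ^ (2 * e * (Fintype.card X - u)) := by
          congr 1
          rw [mul_pow, mul_pow, mul_pow, mul_pow, mul_pow, ← pow_mul, ← pow_mul, ← pow_mul, ← hh]
          ring
      _ ≤ (n ^ (e - 1) * n ^ (e + 1)) ^ u * n ^ (2 * e * (Fintype.card X - u)) := by gcongr
      _ = n ^ (2 * e * u) * n ^ (2 * e * (Fintype.card X - u)) := by
          congr 1
          rw [← pow_add, ← pow_mul]
          congr 2
          omega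
      _ = n ^ (2 * e * Fintype.card X) := h5.symm
  have h1 : (univ : Finset (X → Fin (2 * e) → Y)).card = n ^ (2 * e * Fintype.card X) := by
    rw [card_univ, Fintype.card_fun, Fintype.card_fun, Fintype.card_fin, ← pow_mul]
  have h2 : (univ : Finset (X → Fin (2 * e) → Y)).card ≤ ∑ u ∈ Icc 1 r, (bad u).card + miss.card :=
    (card_le_card hcover).trans ((card_union_le _ _).trans
      (Nat.add_le_add_right card_biUnion_le _))
  have h3 := sum_lt_of_pow (pow_pos hY0 _) hterm
  have h4 : miss.card ≤ n * (n - 1) ^ (2 * e * Fintype.card X) := by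
    rw [hmiss]
    refine card_biUnion_le.trans ?_
    refine (sum_le_card_nsmul _ _ ((n - 1) ^ (2 * e * Fintype.card X)) ?_).trans ?_
    · intro j _
      rw [card_into, card_univ, Nat.sub_self, mul_zero, pow_zero, mul_one,
        card_erase_of_mem (mem_univ j), card_univ]
    · rw [card_univ, smul_eq_mul]
  have h5 := miss_le hY0 hXY
  omega

end Pool.Agent.J6H94.TSp
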