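import Pool.Agent.J6H94.TSp.Search

/-!
# The base formula

Vertices `(ℓ, j, i)` with levels `ℓ ≤ L`, columns `j < M` and positions `i ≤ M`. The vertex
`(ℓ, j, i)` with `0 < ℓ`, `0 < i` has the predecessors `(ℓ, j, i - 1)` and `(ℓ - 1, i - 1, M)`; the
others have none. Constraints: if the predecessors of a vertex are true, then it is true; and
`(L, 0, M)` is false. To find a violated constraint one has to follow the levels.
-/

set_option autoImplicit false
set_option linter.unusedSectionVars false

open Finset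

namespace Pool.Agent.J6H94.TSp

section pebbling

variable {X : Type} [Fintype X] [DecidableEq X]

/-- the variables of the constraints of a pebbling formula -/
def pvs (P : X → Finset X) (z : X) : Option X → Finset X
  | none => {z}
  | some u => insert u (P u)

/-- the constraints of a pebbling formula -/
def ptr (P : X → Finset X) (z : X) : Option X → (X → F2) → Prop
  | none => fun ξ => ξ z ≠ 1
  | some u => fun ξ => (∀ w ∈ P u, ξ w = 1) → ξ u = 1

theorem ptr_congr (P : X → Finset X) (z : X) (i : Option X) (x x' : X → F2)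
    (h : ∀ u ∈ pvs P z i, x u = x' u) (hx : ptr P z i x) : ptr P z i x' := by
  cases i with
  | none =>
    change x' z ≠ 1
    rw [← h z (mem_singleton_self z)]
    exact hx
  | some u =>
    intro h1
    rw [← h u (mem_insert_self _ _)]
    refine hx fun w hw => ?_
    rw [h w (mem_insert_of_mem hw)]
    exact h1 w hw

end pebbling

variable (L M : ℕ)

/-- the vertices -/
abbrev Vtx := Fin (L + 1) × Fin M × Fin (M + 1)

/-- the predecessors of a vertex -/
def pred (u : Vtx L M) : Finset (Vtx L M) :=
  univ.filter fun w => 0 < u.1.val ∧ 0 < u.2.2.val ∧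
    ((w.1.val = u.1.val ∧ w.2.1.val = u.2.1.val ∧ w.2.2.val + 1 = u.2.2.val) ∨
      (w.1.val + 1 = u.1.val ∧ w.2.1.val + 1 = u.2.2.val ∧ w.2.2.val = M))

variable {L M}

theorem mem_pred {u w : Vtx L M} : w ∈ pred L M u ↔ 0 < u.1.val ∧ 0 < u.2.2.val ∧
    ((w.1.val = u.1.val ∧ w.2.1.val = u.2.1.val ∧ w.2.2.val + 1 = u.2.2.val) ∨
      (w.1.val + 1 = u.1.val ∧ w.2.1.val + 1 = u.2.2.val ∧ w.2.2.val = M)) := by
  simp [pred]

theorem card_pred (u : Vtx L M) : (pred L M u).card ≤ 2 := by
  have h1 : pred L M u ⊆ (univ.filter fun w : Vtx L M =>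
      w.1.val = u.1.val ∧ w.2.1.val = u.2.1.val ∧ w.2.2.val + 1 = u.2.2.val) ∪
      univ.filter fun w : Vtx L M =>
        w.1.val + 1 = u.1.val ∧ w.2.1.val + 1 = u.2.2.val ∧ w.2.2.val = M := by
    intro w hw
    rcases (mem_pred.mp hw).2.2 with h | h
    · exact mem_union_left _ (mem_filter.mpr ⟨mem_univ _, h⟩)
    · exact mem_union_right _ (mem_filter.mpr ⟨mem_univ _, h⟩)
  refine (card_le_card h1).trans ((card_union_le _ _).trans ?_)
  have h2 : (univ.filter fun w : Vtx L M =>
      w.1.val = u.1.val ∧ w.2.1.val = u.2.1.val ∧ w.2.2.val + 1 = u.2.2.val).card ≤ 1 := by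
    rw [card_le_one]
    intro a ha b hb
    rw [mem_filter] at ha hb
    obtain ⟨-, h1, h2, h3⟩ := ha
    obtain ⟨-, h4, h5, h6⟩ := hb
    exact Prod.ext (Fin.ext (by omega)) (Prod.ext (Fin.ext (by omega)) (Fin.ext (by omega)))
  have h3 : (univ.filter fun w : Vtx L M =>
        w.1.val + 1 = u.1.val ∧ w.2.1.val + 1 = u.2.2.val ∧ w.2.2.val = M).card ≤ 1 := by
    rw [card_le_one]
    intro a ha b hb
    rw [mem_filter] at ha hb
    obtain ⟨-, h1, h2, h3⟩ := ha
    obtain ⟨-, h4, h5, h6⟩ := hb
    exact Prod.ext (Fin.ext (by omega)) (Prod.ext (Fin.ext (by omega)) (Fin.ext (by omega)))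
  omega

/-- the order of the vertices -/
def ht (u : Vtx L M) : ℕ := u.1.val * (M + 1) + u.2.2.val

theorem ht_pred {u w : Vtx L M} (h : w ∈ pred L M u) : ht w < ht u := by
  obtain ⟨h1, h2, h3⟩ := mem_pred.mp h
  unfold ht
  rcases h3 with ⟨h4, h5, h6⟩ | ⟨h4, h5, h6⟩
  · rw [h4]
    omega
  · rw [← h4, h6]
    have : (w.1.val + 1) * (M + 1) = w.1.val * (M + 1) + (M + 1) := by ring
    omega

/-- the world of the adversary -/
def wval (s : ℕ) (p : ℕ → ℕ) (α : ℕ) (u : Vtx L M) : F2 :=
  if (s < u.1.val ∧ u.2.1.val = p u.1.val ∧ p (u.1.val - 1) < u.2.2.val) ∨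
    (u.1.val = s ∧ u.2.1.val = p s ∧ α < u.2.2.val) then 0 else 1

/-- the states of the adversary -/
structure State (Ξ : Finset (Vtx L M)) (ξ : Vtx L M → F2) (s : ℕ) (p : ℕ → ℕ) (A : Finset ℕ) :
    Prop where
  s_pos : 1 ≤ s
  s_le : s ≤ L
  le_s : L ≤ s + Ξ.card
  pL : p L = 0
  p_lt : ∀ ℓ, p ℓ < M
  ne : A.Nonempty
  A_lt : ∀ α ∈ A, α < M
  untouched : ∀ u ∈ Ξ, u.1.val + 1 = s → u.2.1.val ∉ A
  val : ∀ α ∈ A, ∀ u ∈ Ξ, ξ u = wval s p α u

theorem State.high {Ξ : Finset (Vtx L M)} {ξ : Vtx L M → F2} {s : ℕ} {p : ℕ → ℕ} {A : Finset ℕ}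
    (h : State Ξ ξ s p A) (u : Vtx L M) (hu : u ∉ Ξ) (hs : s ≤ u.1.val) :
    ∃ ξ' s' p' A', State (insert u Ξ) ξ' s' p' A' ∧ ∀ w ∈ Ξ, ξ' w = ξ w := by
  obtain ⟨α₀, hα₀⟩ := h.ne
  refine ⟨Function.update ξ u (wval s p α₀ u), s, p,
    A.filter fun α => wval s p α u = wval s p α₀ u, ⟨h.s_pos, h.s_le, ?_, h.pL, h.p_lt, ?_, ?_, ?_,
      ?_⟩, ?_⟩
  · rw [card_insert_of_notMem hu]
    have := h.le_s
    omega
  · exact ⟨α₀, mem_filter.mpr ⟨hα₀, rfl⟩⟩
  · intro α hα
    exact h.A_lt α (mem_filter.mp hα).1
  · intro w hw hws hcon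
    rcases mem_insert.mp hw with rfl | hw
    · omega
    · exact h.untouched w hw hws (mem_filter.mp hcon).1
  · intro α hα w hw
    rcases mem_insert.mp hw with rfl | hw
    · rw [Function.update_self]
      exact (mem_filter.mp hα).2.symm
    · have hwu : w ≠ u := fun h' => hu (h' ▸ hw)
      rw [Function.update_of_ne hwu]
      exact h.val α (mem_filter.mp hα).1 w hw
  · intro w hw
    rw [Function.update_of_ne (by rintro rfl; exact hu hw)]

theorem State.step {q : ℕ} (hqL : q + 1 ≤ L) (hqM : q + 1 ≤ M) {Ξ : Finset (Vtx L M)}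
    {ξ : Vtx L M → F2} {s : ℕ} {p : ℕ → ℕ} {A : Finset ℕ}
    (h : State Ξ ξ s p A) (hΞ : Ξ.card < q) (u : Vtx L M) (hu : u ∉ Ξ) :
    ∃ ξ' s' p' A', State (insert u Ξ) ξ' s' p' A' ∧ ∀ w ∈ Ξ, ξ' w = ξ w := by
  have hupd : ∀ (b : F2), ∀ w ∈ Ξ, Function.update ξ u b w = ξ w := by
    intro b w hw
    rw [Function.update_of_ne (by rintro rfl; exact hu hw)]
  have hlow : ∀ α, u.1.val < s → wval s p α u = 1 := by
    intro α hus
    unfold wval
    rw [if_neg]
    rintro (h1 | h1) <;> omega
  by_cases hs : s ≤ u.1.val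
  · exact h.high u hu hs
  push Not at hs
  by_cases hs1 : u.1.val + 1 = s
  · by_cases hA : (A.erase u.2.1.val).Nonempty
    · refine ⟨Function.update ξ u 1, s, p, A.erase u.2.1.val, ⟨h.s_pos, h.s_le, ?_, h.pL, h.p_lt,
        hA, ?_, ?_, ?_⟩, hupd 1⟩
      · rw [card_insert_of_notMem hu]
        have := h.le_s
        omega
      · intro α hα
        exact h.A_lt α (mem_erase.mp hα).2
      · intro w hw hws hcon
        rcases mem_insert.mp hw with rfl | hw
        · exact (mem_erase.mp hcon).1 rfl
        · exact h.untouched w hw hws (mem_erase.mp hcon).2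
      · intro α hα w hw
        rcases mem_insert.mp hw with rfl | hw
        · rw [Function.update_self, hlow α hs]
        · rw [hupd 1 w hw]
          exact h.val α (mem_erase.mp hα).2 w hw
    · -- the column is pinned
      rw [not_nonempty_iff_eq_empty] at hA
      set j := u.2.1.val with hj
      have hAj : ∀ α ∈ A, α = j := by
        intro α hα
        by_contra hne
        have : α ∈ A.erase j := mem_erase.mpr ⟨hne, hα⟩
        rw [hA] at this
        simp at this
      have hjA : j ∈ A := by
        obtain ⟨α, hα⟩ := h.ne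
        rwa [← hAj α hα]
      have hs2 : 2 ≤ s := by
        have := h.le_s
        omega
      -- the new set of columns
      set A₀ := (range M).filter fun α => ∀ w ∈ insert u Ξ, w.1.val + 1 = s - 1 → w.2.1.val ≠ α
        with hA₀
      have hA₀ne : A₀.Nonempty := by
        by_contra hcon
        rw [not_nonempty_iff_eq_empty] at hcon
        have h1 : range M ⊆ (insert u Ξ).image fun w => w.2.1.val := by
          intro α hα
          by_contra h2
          have : α ∈ A₀ := by
            rw [hA₀, mem_filter]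
            refine ⟨hα, fun w hw _ h3 => h2 ?_⟩
            exact mem_image.mpr ⟨w, hw, h3⟩
          rw [hcon] at this
          simp at this
        have h2 := (card_le_card h1).trans card_image_le
        rw [card_range, card_insert_of_notMem hu] at h2
        omega
      have hnew : State Ξ ξ (s - 1) (Function.update p (s - 1) j) A₀ → False ∨
          ∃ ξ' s' p' A', State (insert u Ξ) ξ' s' p' A' ∧ ∀ w ∈ Ξ, ξ' w = ξ w := by
        intro h1
        exact Or.inr (h1.high u hu (by omega))
      have hval : ∀ α ∈ A₀, ∀ w ∈ Ξ,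
          ξ w = wval (s - 1) (Function.update p (s - 1) j) α w := by
        intro α _ w hw
        rw [h.val j hjA w hw]
        have h1 := h.untouched w hw
        have key : ((s < w.1.val ∧ w.2.1.val = p w.1.val ∧ p (w.1.val - 1) < w.2.2.val) ∨
            (w.1.val = s ∧ w.2.1.val = p s ∧ j < w.2.2.val)) ↔
            ((s - 1 < w.1.val ∧ w.2.1.val = Function.update p (s - 1) j w.1.val ∧
              Function.update p (s - 1) j (w.1.val - 1) < w.2.2.val) ∨
            (w.1.val = s - 1 ∧ w.2.1.val = Function.update p (s - 1) j (s - 1) ∧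
              α < w.2.2.val)) := by
          rcases lt_trichotomy w.1.val s with h2 | h2 | h2
          · by_cases h3 : w.1.val = s - 1
            · have h4 := h1 (by omega)
              have h5 : w.2.1.val ≠ j := fun h6 => h4 (h6 ▸ hjA)
              rw [Function.update_self]
              constructor
              · rintro (h6 | h6) <;> omega
              · rintro (h6 | h6)
                · omega
                · exact absurd h6.2.1 h5
            · constructor
              · rintro (h6 | h6) <;> omega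
              · rintro (h6 | h6) <;> omega
          · rw [h2, Function.update_of_ne (by omega : s ≠ s - 1), Function.update_self]
            constructor
            · rintro (h6 | h6)
              · omega
              · exact Or.inl ⟨by omega, h6.2⟩
            · rintro (h6 | h6)
              · exact Or.inr ⟨rfl, h6.2⟩
              · omega
          · rw [Function.update_of_ne (by omega : w.1.val ≠ s - 1),
              Function.update_of_ne (by omega : w.1.val - 1 ≠ s - 1)]
            constructor
            · rintro (h6 | h6)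
              · exact Or.inl ⟨by omega, h6.2⟩
              · omega
            · rintro (h6 | h6)
              · exact Or.inl ⟨by omega, h6.2⟩
              · omega
        unfold wval
        exact if_congr key rfl rfl
      have hA₀lt : ∀ α ∈ A₀, α < M := fun α hα => mem_range.mp (mem_filter.mp hα).1
      have hp_lt : ∀ ℓ, Function.update p (s - 1) j ℓ < M := by
        intro ℓ
        by_cases hℓ : ℓ = s - 1
        · rw [hℓ, Function.update_self]
          exact h.A_lt j hjA
        · rw [Function.update_of_ne hℓ]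
          exact h.p_lt ℓ
      have hpL : Function.update p (s - 1) j L = 0 := by
        have := h.s_le
        rw [Function.update_of_ne (by omega)]
        exact h.pL
      have hunt : ∀ w ∈ insert u Ξ, w.1.val + 1 = s - 1 → w.2.1.val ∉ A₀ := by
        intro w hw hws hcon
        exact (mem_filter.mp hcon).2 w hw hws rfl
      -- split the new set according to the value at `u`
      obtain ⟨α₀, hα₀⟩ := hA₀ne
      refine ⟨Function.update ξ u (wval (s - 1) (Function.update p (s - 1) j) α₀ u), s - 1,
        Function.update p (s - 1) j,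
        A₀.filter fun α => wval (s - 1) (Function.update p (s - 1) j) α u =
          wval (s - 1) (Function.update p (s - 1) j) α₀ u,
        ⟨by omega, by have := h.s_le; omega, ?_, hpL, hp_lt, ?_, ?_, ?_, ?_⟩, hupd _⟩
      · rw [card_insert_of_notMem hu]
        have := h.le_s
        omega
      · exact ⟨α₀, mem_filter.mpr ⟨hα₀, rfl⟩⟩
      · intro α hα
        exact hA₀lt α (mem_filter.mp hα).1
      · intro w hw hws hcon
        exact hunt w hw hws (mem_filter.mp hcon).1
      · intro α hα w hw
        rcases mem_insert.mp hw with rfl | hw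
        · rw [Function.update_self]
          exact (mem_filter.mp hα).2.symm
        · rw [hupd _ w hw]
          exact hval α (mem_filter.mp hα).1 w hw
  · refine ⟨Function.update ξ u 1, s, p, A, ⟨h.s_pos, h.s_le, ?_, h.pL, h.p_lt,
        h.ne, h.A_lt, ?_, ?_⟩, hupd 1⟩
    · rw [card_insert_of_notMem hu]
      have := h.le_s
      omega
    · intro w hw hws hcon
      rcases mem_insert.mp hw with rfl | hw
      · exact hs1 hws
      · exact h.untouched w hw hws hcon
    · intro α hα w hw
      rcases mem_insert.mp hw with rfl | hw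
      · rw [Function.update_self, hlow α hs]
      · rw [hupd 1 w hw]
        exact h.val α hα w hw

theorem State.sound {Ξ : Finset (Vtx L M)} {ξ : Vtx L M → F2} {s : ℕ} {p : ℕ → ℕ} {A : Finset ℕ}
    (h : State Ξ ξ s p A) (hM : 0 < M) (i : Option (Vtx L M))
    (hi : pvs (pred L M) (Fin.last L, ⟨0, hM⟩, Fin.last M) i ⊆ Ξ) :
    ptr (pred L M) (Fin.last L, ⟨0, hM⟩, Fin.last M) i ξ := by
  obtain ⟨α, hα⟩ := h.ne
  have hαM := h.A_lt α hα
  have hzero : ∀ u ∈ Ξ, ξ u ≠ 1 → (s < u.1.val ∧ u.2.1.val = p u.1.val ∧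
      p (u.1.val - 1) < u.2.2.val) ∨ (u.1.val = s ∧ u.2.1.val = p s ∧ α < u.2.2.val) := by
    intro u hu h1
    by_contra hcon
    apply h1
    rw [h.val α hα u hu]
    unfold wval
    rw [if_neg hcon]
  have hone : ∀ u ∈ Ξ, ξ u = 1 → ¬ ((s < u.1.val ∧ u.2.1.val = p u.1.val ∧
      p (u.1.val - 1) < u.2.2.val) ∨ (u.1.val = s ∧ u.2.1.val = p s ∧ α < u.2.2.val)) := by
    intro u hu h1 hcon
    rw [h.val α hα u hu] at h1
    unfold wval at h1
    rw [if_pos hcon] at h1
    exact zero_ne_one h1
  cases i with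
  | none =>
    have hz : ((Fin.last L, ⟨0, hM⟩, Fin.last M) : Vtx L M) ∈ Ξ := hi (mem_singleton_self _)
    change ξ _ ≠ 1
    intro h1
    apply hone _ hz h1
    have h2 := h.s_le
    simp only [Fin.val_last]
    rcases h2.lt_or_eq with h3 | h3
    · exact Or.inl ⟨h3, h.pL.symm, h.p_lt _⟩
    · refine Or.inr ⟨h3.symm, ?_, hαM⟩
      rw [h3]
      exact h.pL.symm
  | some u =>
    intro h1
    by_contra h2
    have hu : u ∈ Ξ := hi (mem_insert_self _ _)
    have hw : ∀ w ∈ pred L M u, w ∈ Ξ := fun w hw => hi (mem_insert_of_mem hw)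
    rcases hzero u hu h2 with ⟨h3, h4, h5⟩ | ⟨h3, h4, h5⟩
    · -- the first predecessor
      have hi0 : 0 < u.2.2.val := by omega
      have hp1 : ((u.1, u.2.1, ⟨u.2.2.val - 1, by omega⟩) : Vtx L M) ∈ pred L M u := by
        rw [mem_pred]
        exact ⟨by omega, hi0, Or.inl ⟨rfl, rfl, by simp only; omega⟩⟩
      have h6 := hone _ (hw _ hp1) (h1 _ hp1)
      have h7 : p (u.1.val - 1) = u.2.2.val - 1 := by
        by_contra h8
        apply h6
        left
        exact ⟨h3, h4, by simp only; omega⟩
      have hp2 : ((⟨u.1.val - 1, by omega⟩, ⟨u.2.2.val - 1, by omega⟩, Fin.last M) : Vtx L M) ∈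
          pred L M u := by
        rw [mem_pred]
        refine ⟨by omega, hi0, Or.inr ⟨?_, ?_, ?_⟩⟩
        · simp only; omega
        · simp only; omega
        · simp
      have h8 := hone _ (hw _ hp2) (h1 _ hp2)
      apply h8
      simp only [Fin.val_last]
      by_cases h9 : s < u.1.val - 1
      · exact Or.inl ⟨h9, h7.symm, h.p_lt _⟩
      · have h10 : u.1.val - 1 = s := by omega
        refine Or.inr ⟨h10, ?_, hαM⟩
        rw [← h10]
        exact h7.symm
    · have hi0 : 0 < u.2.2.val := by omega
      have hs := h.s_pos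
      have hp1 : ((u.1, u.2.1, ⟨u.2.2.val - 1, by omega⟩) : Vtx L M) ∈ pred L M u := by
        rw [mem_pred]
        exact ⟨by omega, hi0, Or.inl ⟨rfl, rfl, by simp only; omega⟩⟩
      have h6 := hone _ (hw _ hp1) (h1 _ hp1)
      have h7 : α = u.2.2.val - 1 := by
        by_contra h8
        apply h6
        right
        exact ⟨h3, h4, by simp only; omega⟩
      have hp2 : ((⟨u.1.val - 1, by omega⟩, ⟨u.2.2.val - 1, by omega⟩, Fin.last M) : Vtx L M) ∈
          pred L M u := by
        rw [mem_pred]
        refine ⟨by omega, hi0, Or.inr ⟨?_, ?_, ?_⟩⟩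
        · simp only; omega
        · simp only; omega
        · simp
      refine h.untouched _ (hw _ hp2) ?_ ?_
      · simp only; omega
      · simp only
        rw [← h7]
        exact hα

/-- the adversary -/
def baseAdversary {q : ℕ} (hqL : q + 1 ≤ L) (hqM : q + 1 ≤ M) (hM : 0 < M) :
    Adversary (pvs (pred L M) (Fin.last L, ⟨0, hM⟩, Fin.last M))
      (ptr (pred L M) (Fin.last L, ⟨0, hM⟩, Fin.last M)) q where
  P Ξ ξ := ∃ s p A, State Ξ ξ s p A
  init := ⟨0, L, fun _ => 0, range M, ⟨by omega, le_rfl, by simp, rfl, fun _ => hM,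
    ⟨0, mem_range.mpr hM⟩, fun α hα => mem_range.mp hα, fun u hu => by simp at hu,
    fun α _ u hu => by simp at hu⟩⟩
  step := by
    rintro Ξ ξ ⟨s, p, A, h⟩ hΞ u hu
    obtain ⟨ξ', s', p', A', h1, h2⟩ := h.step hqL hqM hΞ u hu
    exact ⟨ξ', ⟨s', p', A', h1⟩, h2⟩
  sound := by
    rintro Ξ ξ ⟨s, p, A, h⟩ _ i hi
    exact h.sound hM i hi

end Pool.Agent.J6H94.TSp
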