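import Mathlib

/-!
# Resolution refutations and total space

Definitions for MP_f95493_lc. A clause over a type `V` of variables is a finite set of literals; the
literal `(v, true)` is `v`, the literal `(v, false)` is `¬ v`.
-/

set_option autoImplicit false

namespace Pool.Agent.J6H94.TSp

/-- A clause over the variables `V`, as the finite set of its literals: `(v, true)` is the literal `v`
and `(v, false)` is its negation. The empty clause is `∅`. -/
abbrev Clause (V : Type) := Finset (V × Bool)

variable {V : Type} [DecidableEq V]

/-- `E` is obtained by the resolution rule from `C₁ = C ∨ v` and `C₂ = D ∨ ¬ v`: it is `C ∨ D`.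
Here `C` is allowed to contain `v` and `D` is allowed to contain `¬ v`. This liberal form of the rule
is used for space, i.e. in the lower bound. -/
def IsResolvent (C₁ C₂ E : Clause V) : Prop :=
  ∃ (v : V) (C D : Clause V), C₁ = insert (v, true) C ∧ C₂ = insert (v, false) D ∧ E = C ∪ D

/-- The strict form of the resolution rule, with `v` not in `C` and `¬ v` not in `D`. It is used for
size, i.e. in the upper bound. -/
def IsStrictResolvent (C₁ C₂ E : Clause V) : Prop :=
  ∃ (v : V) (C D : Clause V), (v, true) ∉ C ∧ (v, false) ∉ D ∧
    C₁ = insert (v, true) C ∧ C₂ = insert (v, false) D ∧ E = C ∪ D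

/-- `F` is unsatisfiable: every truth assignment falsifies a clause of `F`. -/
def Unsatisfiable (F : Finset (Clause V)) : Prop :=
  ∀ a : V → Bool, ∃ C ∈ F, ∀ l ∈ C, a l.1 ≠ l.2

/-- The list `L` (read from its end to its beginning) is a resolution derivation from `F`: every entry
is a clause of `F` or is derived by the strict resolution rule from two entries which come after it in
the list, i.e. which were derived before. -/
inductive IsDerivation (F : Finset (Clause V)) : List (Clause V) → Prop
  | nil : IsDerivation F []
  | input {C : Clause V} {L : List (Clause V)} :
      C ∈ F → IsDerivation F L → IsDerivation F (C :: L)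
  | resolve {C₁ C₂ E : Clause V} {L : List (Clause V)} :
      C₁ ∈ L → C₂ ∈ L → IsStrictResolvent C₁ C₂ E → IsDerivation F L → IsDerivation F (E :: L)

/-- `F` has a resolution refutation with at most `s` clauses (its last clause is the empty clause). -/
def HasRefutationOfSize (F : Finset (Clause V)) (s : ℕ) : Prop :=
  ∃ L : List (Clause V), IsDerivation F (∅ :: L) ∧ (∅ :: L : List (Clause V)).length ≤ s

/-- The total space of a set of clauses: the number of occurrences of literals. -/
def totalSpace (M : Finset (Clause V)) : ℕ := ∑ C ∈ M, C.card

/-- One step of a space-aware refutation of `F`: adding a clause of `F`, adding a clause derived by the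
resolution rule from two clauses of the configuration, or deleting clauses. -/
def SpaceStep (F M M' : Finset (Clause V)) : Prop :=
  (∃ C ∈ F, M' = insert C M) ∨
  (∃ C₁ ∈ M, ∃ C₂ ∈ M, ∃ E, IsResolvent C₁ C₂ E ∧ M' = insert E M) ∨
  M' ⊆ M

/-- A space-aware refutation of `F`: configurations `conf 0 = ∅, …, conf length`, the last of which
contains the empty clause. -/
structure SpaceRefutation (F : Finset (Clause V)) where
  /-- the number of steps -/
  length : ℕ
  /-- the configurations -/
  conf : ℕ → Finset (Clause V)
  conf_zero : conf 0 = ∅
  step : ∀ i < length, SpaceStep F (conf i) (conf (i + 1))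
  bot_mem : ∅ ∈ conf length

/-- The total space of a space-aware refutation: the maximum of the total space of its
configurations. -/
def SpaceRefutation.space {F : Finset (Clause V)} (π : SpaceRefutation F) : ℕ :=
  (Finset.range (π.length + 1)).sup fun i => totalSpace (π.conf i)

end Pool.Agent.J6H94.TSp
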