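import Pool.Agent.J6H94.TSp.Good

/-!
# Goodness depends on few coordinates of the world
-/

set_option autoImplicit false
set_option linter.unusedSectionVars false

open Finset

namespace Pool.Agent.J6H94.TSp

variable {X Y : Type} [Fintype X] [DecidableEq X] [Fintype Y] [DecidableEq Y] {d : ℕ}

section defs

open Classical

variable (N : X → Fin d → Y) (r θ μ : ℕ)

/-- the clauses which are not wide and have large rank -/
noncomputable def relD (M : Finset (Clause Y)) : Finset (Clause Y) :=
  M.filter fun D => 2 * (vars D).card ≤ r ∧ θ < rk N r (vars D)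

/-- the clauses close to `D` -/
noncomputable def near (M : Finset (Clause Y)) (D : Clause Y) : Finset (Clause Y) :=
  (relD N r θ M).filter fun D' => rk N r (vars D ∪ vars D') ≤ θ + 2 * μ

/-- the coordinates on which goodness depends -/
noncomputable def Vset (M : Finset (Clause Y)) : Finset X :=
  ((M.filter fun D => 2 * (vars D).card ≤ r).biUnion fun D => Bs N r (vars D)) ∪
    (relD N r θ M).biUnion fun D => Bs N r ((near N r θ μ M D).biUnion vars)

end defs

variable {N : X → Fin d → Y} {r θ μ : ℕ}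

theorem mem_relD {M : Finset (Clause Y)} {D : Clause Y} :
    D ∈ relD N r θ M ↔ D ∈ M ∧ 2 * (vars D).card ≤ r ∧ θ < rk N r (vars D) := by
  simp [relD]

theorem mem_near {M : Finset (Clause Y)} {D D' : Clause Y} :
    D' ∈ near N r θ μ M D ↔ D' ∈ relD N r θ M ∧ rk N r (vars D ∪ vars D') ≤ θ + 2 * μ := by
  simp [near]

theorem card_relD {M : Finset (Clause Y)} (hT : totalSpace M < (θ + 1) * (μ + 1)) :
    (relD N r θ M).card ≤ μ := by
  refine card_le_mu hT _ (fun _ hD => (mem_relD.mp hD).1) fun D hD => ?_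
  have h1 := (mem_relD.mp hD).2.2
  have h2 : rk N r (vars D) ≤ (vars D).card := rk_le_card
  have h3 := card_vars_le D
  omega

/-- a union of sets each of which adds little rank to `Δ` -/
theorem rk_biUnion (hE : Expands N r) {Δ : Finset Y} {m : ℕ} (A : Finset (Clause Y))
    (hΔ : Δ.card ≤ r)
    (hsmall : 4 * (rk N r Δ + m * A.card) ≤ r)
    (h1 : ∀ D ∈ A, 2 * (vars D).card ≤ r)
    (h2 : ∀ D ∈ A, rk N r (Δ ∪ vars D) ≤ rk N r Δ + m) :
    (Δ ∪ A.biUnion vars).card ≤ r ∧ rk N r (Δ ∪ A.biUnion vars) ≤ rk N r Δ + m * A.card := by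
  induction A using Finset.induction_on with
  | empty => simp [hΔ]
  | insert D A hD ih =>
    rw [card_insert_of_notMem hD, mul_add_one] at hsmall
    obtain ⟨h3, h4⟩ := ih (by omega) (fun D' hD' => h1 D' (mem_insert_of_mem hD'))
      fun D' hD' => h2 D' (mem_insert_of_mem hD')
    have h5 := h1 D (mem_insert_self _ _)
    have h6 := h2 D (mem_insert_self _ _)
    have h7 := card_le_two_rk hE h3
    have h8 : Δ ∪ (insert D A).biUnion vars = (Δ ∪ A.biUnion vars) ∪ (Δ ∪ vars D) := by
      rw [biUnion_insert]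
      ext i
      simp only [mem_union]
      tauto
    have h9 : (Δ ∪ A.biUnion vars) ∪ (Δ ∪ vars D) = (Δ ∪ A.biUnion vars) ∪ vars D := by
      ext i
      simp only [mem_union]
      tauto
    have h10 : ((Δ ∪ A.biUnion vars) ∪ (Δ ∪ vars D)).card ≤ r := by
      rw [h9]
      have := card_union_le (Δ ∪ A.biUnion vars) (vars D)
      omega
    have h11 := rk_submod hE h10
    have h12 : rk N r Δ ≤ rk N r ((Δ ∪ A.biUnion vars) ∩ (Δ ∪ vars D)) :=
      rk_mono hE (subset_inter subset_union_left subset_union_left)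
        ((card_le_card inter_subset_left).trans h3)
    rw [h8, card_insert_of_notMem hD, mul_add_one]
    exact ⟨h10, by omega⟩

theorem card_near (hE : Expands N r) (hr : 100 * (θ + (μ + 1) ^ 2) ≤ r) {M : Finset (Clause Y)}
    (hT : totalSpace M < (θ + 1) * (μ + 1)) {D : Clause Y} (hD : D ∈ relD N r θ M) :
    ((near N r θ μ M D).biUnion vars).card ≤ r := by
  rcases (near N r θ μ M D).eq_empty_or_nonempty with h0 | ⟨D₀, hD₀⟩
  · rw [h0]; simp
  · obtain ⟨hD1, hD2, hD3⟩ := mem_relD.mp hD
    have h1 : (near N r θ μ M D).card ≤ μ :=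
      (card_le_card fun D' hD' => (mem_near.mp hD').1).trans (card_relD (N := N) (r := r) hT)
    obtain ⟨h2, h3⟩ := mem_near.mp hD₀
    obtain ⟨-, h4, -⟩ := mem_relD.mp h2
    have h5 : (vars D ∪ vars D₀).card ≤ r := (card_union_le _ _).trans (by omega)
    have h6 : rk N r (vars D) ≤ θ + 2 * μ := (rk_mono hE subset_union_left h5).trans h3
    have h7 : 2 * μ * (near N r θ μ M D).card ≤ 2 * μ * μ := Nat.mul_le_mul_left _ h1
    have h8 : (μ + 1) ^ 2 = μ * μ + 2 * μ + 1 := by ring
    have h9 : 2 * μ * μ = 2 * (μ * μ) := by ring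
    have h10 := rk_biUnion hE (Δ := vars D) (m := 2 * μ) (near N r θ μ M D) (by omega)
      (by omega) (fun D' hD' => (mem_relD.mp (mem_near.mp hD').1).2.1)
      (fun D' hD' => by
        have := (mem_near.mp hD').2
        omega)
    exact (card_le_card subset_union_right).trans h10.1

theorem card_Vset (hE : Expands N r) (hr : 100 * (θ + (μ + 1) ^ 2) ≤ r) {M : Finset (Clause Y)}
    (hT : totalSpace M < (θ + 1) * (μ + 1)) :
    (Vset N r θ μ M).card ≤ totalSpace M + μ * r := by
  classical
  unfold Vset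
  refine (card_union_le _ _).trans (Nat.add_le_add ?_ ?_)
  · refine card_biUnion_le.trans ?_
    unfold totalSpace
    refine (sum_le_sum (g := fun D : Clause Y => D.card) fun D hD => ?_).trans
      (sum_le_sum_of_subset (filter_subset _ _))
    have h1 := (mem_filter.mp hD).2
    have h2 := Bs_card hE (U := vars D) (by omega)
    have h3 := card_vars_le D
    omega
  · refine card_biUnion_le.trans ?_
    calc ∑ D ∈ relD N r θ M, (Bs N r ((near N r θ μ M D).biUnion vars)).card
        ≤ ∑ _D ∈ relD N r θ M, r := by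
          refine sum_le_sum fun D hD => ?_
          have h1 := card_near hE hr hT hD
          have h2 := Bs_card hE h1
          omega
      _ = (relD N r θ M).card * r := by rw [sum_const, smul_eq_mul]
      _ ≤ μ * r := Nat.mul_le_mul_right _ (card_relD hT)

/-- satisfy the clauses which are far from `Δ` one by one with free literals -/
theorem finish (hE : Expands N r) (hr : 100 * (θ + (μ + 1) ^ 2) ≤ r) {x : X → F2}
    {Δ : Finset Y} (hΔr : Δ.card ≤ r) (hΔ : rk N r Δ ≤ θ) {U₀ : Finset Y} {b₀ : Y → F2}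
    (hΔU : Δ ⊆ U₀) (hLC : LC N r x U₀ b₀) {k : ℕ} (hU₀ : U₀.card ≤ Δ.card + k)
    (hrkU₀ : rk N r U₀ ≤ rk N r Δ + k)
    (A : Finset (Clause Y)) (hA : k + A.card ≤ μ)
    (h : ∀ D ∈ A, r < 2 * (vars D).card ∨
      (2 * (vars D).card ≤ r ∧ rk N r Δ + μ < rk N r (Δ ∪ vars D))) :
    ∃ (U : Finset Y) (b : Y → F2), U₀ ⊆ U ∧ (∀ j ∈ U₀, b j = b₀ j) ∧ LC N r x U b ∧
      U.card ≤ U₀.card + A.card ∧ rk N r U ≤ rk N r U₀ + A.card ∧ ∀ D ∈ A, Sat U b D := by
  have hμ : 0 < (μ + 1) ^ 2 := by positivity
  have hμ' : μ + 1 ≤ (μ + 1) ^ 2 := Nat.le_self_pow (by norm_num) _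
  have hΔ2 := card_le_two_rk hE hΔr
  induction A using Finset.induction_on with
  | empty =>
    exact ⟨U₀, b₀, Subset.refl _, fun _ _ => rfl, hLC, by simp, by simp, fun D hD => by simp at hD⟩
  | insert D A hD ih =>
    rw [card_insert_of_notMem hD] at hA ⊢
    obtain ⟨U, b, h1, h2, h3, h4, h5, h6⟩ := ih (by omega)
      fun D' hD' => h D' (mem_insert_of_mem hD')
    -- a set of variables of `D` which adds rank
    have hfree : ∃ j ∈ vars D, j ∉ U ∧ K N r (insert j U) = K N r U := by
      rcases h D (mem_insert_self _ _) with h7 | ⟨h7, h8⟩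
      · obtain ⟨W, hW, hWc⟩ := exists_subset_card_eq (s := vars D) (n := r / 2) (by omega)
        have h9 : (U ∪ W).card ≤ r := (card_union_le _ _).trans (by omega)
        have h10 := card_le_two_rk hE (U := W) (by omega)
        have h11 : rk N r W ≤ rk N r (U ∪ W) := rk_mono hE subset_union_right h9
        have h12 : rk N r U ≤ U.card := rk_le_card
        obtain ⟨j, hj, h13⟩ := exists_free hE h9 (by omega)
        exact ⟨j, hW hj, h13⟩
      · have h9 : (U ∪ vars D).card ≤ r := (card_union_le _ _).trans (by omega)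
        have h10 : rk N r (Δ ∪ vars D) ≤ rk N r (U ∪ vars D) :=
          rk_mono hE (union_subset_union (hΔU.trans h1) (Subset.refl _)) h9
        exact exists_free hE h9 (by omega)
    obtain ⟨j, hj, hjU, hK⟩ := hfree
    obtain ⟨l, hl, rfl⟩ := mem_image.mp hj
    have hUr : U.card ≤ r := by omega
    refine ⟨insert l.1 U, Function.update b l.1 (tb l.2), h1.trans (subset_insert _ _),
      ?_, ?_, ?_, ?_, ?_⟩
    · intro i hi
      rw [Function.update_of_ne (by rintro rfl; exact hjU (h1 hi)), h2 i hi]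
    · intro v hv
      rw [hK] at hv
      exact LC_congr hE hUr (fun i hi => by
        rw [Function.update_of_ne (by rintro rfl; exact hjU hi)]) h3 v hv
    · have := card_insert_le l.1 U
      omega
    · have h14 : (insert l.1 U).card ≤ r := (card_insert_le _ _).trans (by omega)
      have h15 := rk_add hE h14
      have h16 := rk_add hE hUr
      rw [hK] at h15
      have h17 := card_insert_of_notMem hjU
      omega
    · intro D' hD'
      rcases mem_insert.mp hD' with rfl | hD'
      · exact ⟨l, hl, mem_insert_self _ _, by rw [Function.update_self]⟩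
      · refine (h6 D' hD').mono (subset_insert _ _) fun i hi => ?_
        rw [Function.update_of_ne (by rintro rfl; exact hjU hi)]

theorem Valid_world {M : Finset (Clause Y)} {x x' : X → F2} {D : Clause Y} (hD : D ∈ M)
    (h2 : 2 * (vars D).card ≤ r) (hx : ∀ u ∈ Vset N r θ μ M, x u = x' u)
    (h : Valid N r x D) : Valid N r x' D := by
  classical
  intro a ha
  refine h a (LC_world (x := x') (fun u hu => ?_) ha)
  refine (hx u ?_).symm
  unfold Vset
  exact mem_union_left _ (mem_biUnion.mpr ⟨D, mem_filter.mpr ⟨hD, h2⟩, hu⟩)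

theorem Bad_world {M : Finset (Clause Y)} {x x' : X → F2} {D : Clause Y} (hD : D ∈ M)
    (hx : ∀ u ∈ Vset N r θ μ M, x u = x' u) (h : Bad N r x' D) : Bad N r x D := by
  by_cases h2 : 2 * (vars D).card ≤ r
  · right
    intro h3
    rcases h with h | h
    · omega
    · exact h (Valid_world hD h2 hx h3)
  · left
    omega

/-- goodness depends only on the coordinates in `Vset` -/
theorem good_world (hE : Expands N r) (hr : 100 * (θ + (μ + 1) ^ 2) ≤ r) {M : Finset (Clause Y)}
    (hT : totalSpace M < (θ + 1) * (μ + 1)) {x x' : X → F2}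
    (hx : ∀ u ∈ Vset N r θ μ M, x u = x' u) (hM : Good N r θ M x) : Good N r θ M x' := by
  classical
  have hμ : 0 < (μ + 1) ^ 2 := by positivity
  have hμ' : μ + 1 ≤ (μ + 1) ^ 2 := Nat.le_self_pow (by norm_num) _
  have hμ2 : (μ + 1) ^ 2 = μ * μ + 2 * μ + 1 := by ring
  intro Δ a hΔr hΔ ha
  have hΔ2 := card_le_two_rk hE hΔr
  set B := bads N r M x with hB
  have hBc : B.card ≤ μ := card_bads hr hT hM
  set A := B.filter fun D => 2 * (vars D).card ≤ r ∧ rk N r (Δ ∪ vars D) ≤ rk N r Δ + μ with hA
  have hAB : A ⊆ B := filter_subset _ _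
  have hAc : A.card ≤ μ := (card_le_card hAB).trans hBc
  have hμA : μ * A.card ≤ μ * μ := Nat.mul_le_mul_left _ hAc
  obtain ⟨hV, hVrk⟩ := rk_biUnion hE (Δ := Δ) (m := μ) A hΔr (by omega)
    (fun D hD => (mem_filter.mp hD).2.1) (fun D hD => (mem_filter.mp hD).2.2)
  -- the worlds agree on the closure of `Z`
  have hZ : ∀ u ∈ Bs N r (A.biUnion vars), x u = x' u := by
    intro u hu
    rcases A.eq_empty_or_nonempty with h0 | ⟨D₀, hD₀⟩
    · rw [h0, biUnion_empty, Bs_empty hE] at hu
      simp at hu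
    · apply hx
      have hrel : ∀ D ∈ A, D ∈ relD N r θ M := by
        intro D hD
        obtain ⟨h1, h2, h3⟩ := mem_filter.mp hD
        obtain ⟨h4, h5⟩ := mem_bads.mp h1
        exact mem_relD.mpr ⟨h4, h2, bad_rank hM h4 h5 h2⟩
      have hsub : A.biUnion vars ⊆ (near N r θ μ M D₀).biUnion vars := by
        refine biUnion_subset_biUnion_of_subset_left _ fun D hD => ?_
        refine mem_near.mpr ⟨hrel D hD, ?_⟩
        obtain ⟨-, h2, h3⟩ := mem_filter.mp hD
        obtain ⟨-, h2', h3'⟩ := mem_filter.mp hD₀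
        have h4 := rk_biUnion hE (Δ := Δ) (m := μ) {D₀, D} hΔr
          (by
            have h5 : ({D₀, D} : Finset (Clause Y)).card ≤ 2 := card_le_two
            have h6 : μ * ({D₀, D} : Finset (Clause Y)).card ≤ μ * 2 := Nat.mul_le_mul_left _ h5
            omega)
          (fun D' hD' => by
            rcases mem_insert.mp hD' with rfl | hD'
            · exact h2'
            · rw [mem_singleton.mp hD']; exact h2)
          (fun D' hD' => by
            rcases mem_insert.mp hD' with rfl | hD'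
            · exact h3'
            · rw [mem_singleton.mp hD']; exact h3)
        have h5 : ({D₀, D} : Finset (Clause Y)).card ≤ 2 := card_le_two
        have h6 : μ * ({D₀, D} : Finset (Clause Y)).card ≤ μ * 2 := Nat.mul_le_mul_left _ h5
        have h7 : vars D₀ ∪ vars D ⊆ Δ ∪ ({D₀, D} : Finset (Clause Y)).biUnion vars := by
          intro i hi
          refine mem_union_right _ (mem_biUnion.mpr ?_)
          rcases mem_union.mp hi with hi | hi
          · exact ⟨D₀, mem_insert_self _ _, hi⟩
          · exact ⟨D, mem_insert_of_mem (mem_singleton_self _), hi⟩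
        have h8 := rk_mono hE h7 h4.1
        omega
      unfold Vset
      exact mem_union_right _ (mem_biUnion.mpr ⟨D₀, hrel D₀ hD₀, Bs_mono hsub hu⟩)
  obtain ⟨η, hη, hshift⟩ := world_shift hE (subset_union_right (s₁ := Δ)) hV hZ
  have ha' : LC N r x Δ (a - η) := by
    rw [hshift Δ subset_union_left, sub_add_cancel]
    exact ha
  obtain ⟨U, b, h1, h2, h3, h4, h5⟩ := hM Δ (a - η) hΔr hΔ ha'
  obtain ⟨U₀, h6, h7, h8, h9, h10⟩ := pick h1 A fun D hD =>
    h5 D (mem_bads.mp (hAB hD)).1 (mem_bads.mp (hAB hD)).2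
  have h11 : LC N r x' U₀ (b + η) := (hshift U₀ h8 b).mp (LC_mono h7 h4)
  have h12 : rk N r U₀ ≤ rk N r Δ + A.card := by
    have h13 : Δ ∪ (U₀ \ Δ) = U₀ := union_sdiff_of_subset h6
    have h14 := rk_union_le hE (U := Δ) (V := U₀ \ Δ) (by rw [h13]; omega)
    rw [h13] at h14
    have h15 := card_sdiff_add_card_eq_card h6
    omega
  have hAB' : A.card + (B \ A).card ≤ μ := by
    have := card_sdiff_add_card_eq_card hAB
    omega
  obtain ⟨U₂, b₂, h16, h17, h18, h19, -, h20⟩ := finish hE hr hΔr hΔ h6 h11 h9 h12 (B \ A) hAB'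
    (fun D hD => by
      obtain ⟨h21, h22⟩ := mem_sdiff.mp hD
      by_cases h23 : 2 * (vars D).card ≤ r
      · right
        refine ⟨h23, ?_⟩
        by_contra hcon
        push Not at hcon
        exact h22 (mem_filter.mpr ⟨h21, h23, hcon⟩)
      · left
        omega)
  refine ⟨U₂, b₂, h6.trans h16, by omega, ?_, h18, ?_⟩
  · intro j hj
    rw [h17 j (h6 hj), Pi.add_apply, h3 j hj, Pi.sub_apply, sub_add_cancel]
  · intro D hD hbad
    have hDB : D ∈ B := mem_bads.mpr ⟨hD, Bad_world hD hx hbad⟩
    by_cases hDA : D ∈ A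
    · obtain ⟨l, hl, h21, h22⟩ := h10 D hDA
      refine ⟨l, hl, h16 h21, ?_⟩
      rw [h17 _ h21, Pi.add_apply, h22,
        hη _ (mem_biUnion.mpr ⟨D, hDA, mem_vars hl⟩), add_zero]
    · exact h20 D (mem_sdiff.mpr ⟨hDB, hDA⟩)

end Pool.Agent.J6H94.TSp
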