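import Pool.Agent.J6H94.TSp.Occur
import Pool.Agent.J6H94.TSp.Expand

/-!
# The family of formulas
-/

set_option autoImplicit false
set_option linter.unusedSectionVars false

open Finset

namespace Pool.Agent.J6H94.TSp

/-- the formula for general parameters -/
theorem family_general {e m r n θ μ T q cX : ℕ} (he : 5 ≤ e) (hm : 0 < m) (hn : 2 ≤ n)
    (hcX : cX = (q + 2) * ((q + 1) * (q + 2))) (hXe : cX ≤ m ^ (e - 1))
    (hXn : cX + 1 ≤ n ^ 25)
    (hrn : 9 * m * ((e + 1) * r) ≤ n) (hXY : n * n ≤ 2 * e * cX) (hr1 : 1 ≤ r)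
    (hr6 : 2 * (2 * e * 3) ≤ r) (hθ : 100 * (θ + (μ + 1) ^ 2) ≤ r) (hT : T < (θ + 1) * (μ + 1))
    (hq : q = (2 * n + 1) * (T + 1) * (T + μ * r) + 3) :
    ∃ F : Finset (Clause (Fin n)),
      (∀ C ∈ F, C.card ≤ 6 * e) ∧
      (∀ v, ∃ C ∈ F, (v, true) ∈ C ∨ (v, false) ∈ C) ∧
      F.card ≤ n ^ (12 * e + 27) ∧
      Unsatisfiable F ∧
      HasRefutationOfSize F (n ^ (12 * e + 27)) ∧
      ∀ π : SpaceRefutation F, T < π.space := by
  classical
  have hM : 0 < q + 1 := Nat.succ_pos q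
  have hX : Fintype.card (Vtx (q + 1) (q + 1)) = cX := by
    rw [hcX]
    simp only [Vtx, Fintype.card_prod, Fintype.card_fin]
  obtain ⟨N, hE, hsurj⟩ := exists_expander (Vtx (q + 1) (q + 1)) (Fin n) e m r he
    (by rw [hX]; exact hXe) (by rw [Fintype.card_fin]; omega)
    (by rw [Fintype.card_fin]; exact hrn) hm (by rw [Fintype.card_fin, hX]; exact hXY)
  obtain ⟨z, hz⟩ : ∃ z : Vtx (q + 1) (q + 1),
    z = (Fin.last (q + 1), ⟨0, hM⟩, Fin.last (q + 1)) := ⟨_, rfl⟩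
  have hP : ∀ u : Vtx (q + 1) (q + 1), (pred (q + 1) (q + 1) u).card ≤ 2 := card_pred
  have hvs : ∀ i : Option (Vtx (q + 1) (q + 1)), (pvs (pred (q + 1) (q + 1)) z i).card ≤ 3 := by
    intro i
    cases i with
    | none => simp [pvs]
    | some u => exact (card_insert_le _ _).trans (by have := hP u; omega)
  have hpow2 : (cX + 1) * 2 ^ (6 * (2 * e) + 2) ≤ n ^ (12 * e + 27) := by
    calc (cX + 1) * 2 ^ (6 * (2 * e) + 2)
        ≤ n ^ 25 * n ^ (6 * (2 * e) + 2) := Nat.mul_le_mul hXn (Nat.pow_le_pow_left hn _)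
      _ = n ^ (12 * e + 27) := by rw [← pow_add]; congr 1; ring
  refine ⟨substF N (pvs (pred (q + 1) (q + 1)) z) (ptr (pred (q + 1) (q + 1)) z),
    ?_, ?_, ?_, ?_, ?_, ?_⟩
  · intro C hC
    obtain ⟨i, β, -, rfl⟩ := mem_substF.mp hC
    refine (card_negClause_le _ _).trans ((card_Wof_le N _).trans ?_)
    have := Nat.mul_le_mul_left (2 * e) (hvs i)
    omega
  · intro v
    obtain ⟨u, a, rfl⟩ := hsurj v
    refine occurs hE hr1 (by omega) (pred (q + 1) (q + 1)) z hP (fun u hu => ?_) u a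
    exact absurd (ht_pred hu) (lt_irrefl _)
  · refine (card_substF_le N (pred (q + 1) (q + 1)) z hP).trans (le_trans ?_ hpow2)
    rw [hX]
    exact Nat.mul_le_mul_left _ (Nat.pow_le_pow_right (by norm_num) (by omega))
  · exact unsat N (pred (q + 1) (q + 1)) z ht fun u w hw => ht_pred hw
  · obtain ⟨L', h1, h2⟩ := short_refutation N (pred (q + 1) (q + 1)) z ht hP
      fun u w hw => ht_pred hw
    rw [hX] at h2
    exact ⟨L', h1, h2.trans hpow2⟩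
  · intro π
    refine lower_bound (θ := θ) (μ := μ) hE hθ (ptr_congr (pred (q + 1) (q + 1)) z) hvs (c := 3)
      hr6 hT (q := q) ?_ ?_ π
    · rw [Fintype.card_fin, hq]
    · rw [hz]
      exact baseAdversary le_rfl le_rfl hM

/-- the formulas: `t` governs the exponent -/
theorem family (t m : ℕ) (ht : 1 ≤ t) (hm1 : 200 ≤ m) (hm2 : 9 * (24 * (2 * t + 3) + 6) ≤ m) :
    ∃ F : Finset (Clause (Fin (m ^ (2 * t + 3)))),
      (∀ C ∈ F, C.card ≤ 6 * (24 * (2 * t + 3) + 5)) ∧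
      (∀ v, ∃ C ∈ F, (v, true) ∈ C ∨ (v, false) ∈ C) ∧
      F.card ≤ (m ^ (2 * t + 3)) ^ (12 * (24 * (2 * t + 3) + 5) + 27) ∧
      Unsatisfiable F ∧
      HasRefutationOfSize F ((m ^ (2 * t + 3)) ^ (12 * (24 * (2 * t + 3) + 5) + 27)) ∧
      ∀ π : SpaceRefutation F, m ^ (3 * t) < π.space := by
  obtain ⟨e, he⟩ : ∃ e, e = 24 * (2 * t + 3) + 5 := ⟨_, rfl⟩
  obtain ⟨n, hn⟩ : ∃ n, n = m ^ (2 * t + 3) := ⟨_, rfl⟩
  have hm0 : 0 < m := by omega
  rw [← he, ← hn]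
  have he' : 9 * (e + 1) ≤ m := by omega
  have he1 : (2 * t + 3) * 24 ≤ e - 1 := by
    clear hm1 hm2
    omega
  have he5 : 5 ≤ e := by
    rw [he]
    exact Nat.le_add_left _ _
  have he0 : 0 < 2 * e := Nat.mul_pos two_pos (lt_of_lt_of_le (by norm_num) he5)
  have hpow : ∀ a b : ℕ, a ≤ b → m ^ a ≤ m ^ b := fun a b h => Nat.pow_le_pow_right hm0 h
  -- the sizes
  obtain ⟨r, hr⟩ : ∃ r, r = m ^ (2 * t + 1) := ⟨_, rfl⟩
  obtain ⟨θ, hθ⟩ : ∃ θ, θ = m ^ (2 * t) := ⟨_, rfl⟩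
  obtain ⟨μ, hμ⟩ : ∃ μ, μ + 1 = m ^ t := ⟨m ^ t - 1, by
    have := Nat.pow_pos (n := t) hm0
    omega⟩
  obtain ⟨T, hT⟩ : ∃ T, T = m ^ (3 * t) := ⟨_, rfl⟩
  rw [← hT]
  have hmn : m ≤ n := by
    rw [hn]
    calc m = m ^ 1 := (pow_one m).symm
      _ ≤ _ := hpow _ _ (by omega)
  have hn200 : 200 ≤ n := hm1.trans hmn
  have hn0 : 0 < n := by omega
  have hn2 : 2 ≤ n := by omega
  have hmr : m ≤ r := by
    rw [hr]
    calc m = m ^ 1 := (pow_one m).symm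
      _ ≤ _ := hpow _ _ (by omega)
  have hθr : 200 * θ ≤ r := by
    rw [hr, hθ, pow_succ]
    calc 200 * m ^ (2 * t) ≤ m * m ^ (2 * t) := Nat.mul_le_mul_right _ hm1
      _ = _ := Nat.mul_comm _ _
  have hμθ : (μ + 1) ^ 2 = θ := by
    rw [hμ, hθ, ← pow_mul]
    congr 1
    ring
  have hT1 : T < (θ + 1) * (μ + 1) := by
    have h1 : T = θ * (μ + 1) := by
      rw [hT, hθ, hμ, ← pow_add]
      congr 1
      ring
    rw [h1, add_mul]
    omega
  -- the number of queries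
  obtain ⟨q, hq⟩ : ∃ q, q = (2 * n + 1) * (T + 1) * (T + μ * r) + 3 := ⟨_, rfl⟩
  have hq7 : q + 2 ≤ n ^ 8 := by
    have h1 : 2 * n + 1 ≤ n ^ 2 := by nlinarith
    have h2 : T ≤ n ^ 2 := by
      rw [hT, hn, ← pow_mul]
      exact hpow _ _ (by omega)
    have h3 : T + 1 ≤ n ^ 3 := by
      have : n ^ 3 = n * n ^ 2 := by ring
      have h4 : 1 ≤ n ^ 2 := Nat.one_le_pow _ _ hn0
      nlinarith
    have h4 : μ * r ≤ n ^ 2 := by
      calc μ * r ≤ m ^ t * m ^ (2 * t + 1) := by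
            rw [hr]
            exact Nat.mul_le_mul_right _ (by omega)
        _ = m ^ (3 * t + 1) := by rw [← pow_add]; congr 1; ring
        _ ≤ n ^ 2 := by
          rw [hn, ← pow_mul]
          exact hpow _ _ (by omega)
    have h5 : T + μ * r ≤ 2 * n ^ 2 := by omega
    have h6 : (2 * n + 1) * (T + 1) * (T + μ * r) ≤ n ^ 2 * n ^ 3 * (2 * n ^ 2) :=
      Nat.mul_le_mul (Nat.mul_le_mul h1 h3) h5
    have h7 : n ^ 2 * n ^ 3 * (2 * n ^ 2) = 2 * n ^ 7 := by ring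
    have h8 : n ^ 8 = n * n ^ 7 := by ring
    have h9 : 1 ≤ n ^ 7 := Nat.one_le_pow _ _ hn0
    have h10 : 200 * n ^ 7 ≤ n * n ^ 7 := Nat.mul_le_mul_right _ hn200
    omega
  -- the number of vertices
  obtain ⟨cX, hX⟩ : ∃ cX, cX = (q + 2) * ((q + 1) * (q + 2)) := ⟨_, rfl⟩
  have hXn : cX ≤ n ^ 24 := by
    rw [hX]
    calc (q + 2) * ((q + 1) * (q + 2)) ≤ n ^ 8 * (n ^ 8 * n ^ 8) :=
          Nat.mul_le_mul hq7 (Nat.mul_le_mul (by omega) hq7)
      _ = n ^ 24 := by ring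
  have hXe : cX ≤ m ^ (e - 1) := by
    refine hXn.trans ?_
    rw [hn, ← pow_mul]
    exact hpow _ _ he1
  have hXn' : cX + 1 ≤ n ^ 25 := by
    have h3 : 1 ≤ n ^ 24 := Nat.one_le_pow _ _ hn0
    calc cX + 1 ≤ n ^ 24 + n ^ 24 := Nat.add_le_add hXn h3
      _ = 2 * n ^ 24 := (Nat.two_mul _).symm
      _ ≤ n * n ^ 24 := Nat.mul_le_mul_right _ hn2
      _ = n ^ 25 := by ring
  have hXY : n * n ≤ 2 * e * cX := by
    clear hq7 hXn hXe hXn'
    have h1 : n ≤ q := by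
      rw [hq]
      have h2 : 1 ≤ T := by rw [hT]; exact Nat.one_le_pow _ _ hm0
      have h3 : 1 ≤ T + μ * r := by omega
      have h4 : (2 * n + 1) * 1 * 1 ≤ (2 * n + 1) * (T + 1) * (T + μ * r) :=
        Nat.mul_le_mul (Nat.mul_le_mul_left _ (by omega)) h3
      omega
    have h5 : n * n ≤ (q + 2) * (q + 2) := Nat.mul_le_mul (by omega) (by omega)
    have h6 : (q + 2) * (q + 2) ≤ (q + 2) * ((q + 1) * (q + 2)) :=
      Nat.mul_le_mul_left _ (Nat.le_mul_of_pos_left _ (by omega))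
    have h7 : cX ≤ 2 * e * cX := Nat.le_mul_of_pos_left _ he0
    rw [← hX] at h6
    exact h5.trans (h6.trans h7)
  have hrn : 9 * m * ((e + 1) * r) ≤ n := by
    rw [hn]
    calc 9 * m * ((e + 1) * r) = (9 * (e + 1)) * (m * r) := by ring
      _ ≤ m * (m * r) := Nat.mul_le_mul_right _ he'
      _ = m ^ (2 * t + 3) := by rw [hr]; ring
  have hr6 : 2 * (2 * e * 3) ≤ r := by
    clear hq7 hXn hXe hXn' hX hXY hq
    have h1 : m * m ≤ r := by
      rw [hr]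
      calc m * m = m ^ 2 := by ring
        _ ≤ _ := hpow _ _ (by omega)
    have h2 : 200 * m ≤ m * m := Nat.mul_le_mul_right _ hm1
    omega
  have hr1 : 1 ≤ r := hm0.trans_le hmr
  have hθμ : 100 * (θ + (μ + 1) ^ 2) ≤ r := by
    rw [hμθ]
    clear hq7 hXn hXe hXn' hX hXY hq
    omega
  exact family_general he5 hm0 hn2 hX hXe hXn' hrn hXY hr1 hr6 hθμ hT1 hq

end Pool.Agent.J6H94.TSp
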