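import Pool.Agent.J6H94.TSp.Lin
import Pool.Agent.J6H94.TSp.Defs

/-!
# Good configurations

`Good M x` : in the world `x : X → F2` every small locally consistent partial assignment can be
extended to one which satisfies all clauses of `M` that are wide or not valid in the world `x`. This
property is preserved by all steps of a refutation except for the download of axioms violated by `x`.
-/

set_option autoImplicit false
set_option linter.unusedSectionVars false

open Finset

namespace Pool.Agent.J6H94.TSp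

variable {X Y : Type} [Fintype X] [DecidableEq X] [Fintype Y] [DecidableEq Y] {d : ℕ}

/-- truth values as elements of the field -/
def tb (b : Bool) : F2 := if b then 1 else 0

/-- the variables of a clause -/
def vars (D : Clause Y) : Finset Y := D.image Prod.fst

theorem mem_vars {D : Clause Y} {l : Y × Bool} (h : l ∈ D) : l.1 ∈ vars D :=
  mem_image_of_mem _ h

theorem card_vars_le (D : Clause Y) : (vars D).card ≤ D.card := card_image_le

/-- the partial assignment given by `a` on `U` satisfies `D` -/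
def Sat (U : Finset Y) (a : Y → F2) (D : Clause Y) : Prop := ∃ l ∈ D, l.1 ∈ U ∧ a l.1 = tb l.2

theorem Sat.mono {U V : Finset Y} {a b : Y → F2} {D : Clause Y} (h : Sat U a D) (hUV : U ⊆ V)
    (hab : ∀ j ∈ U, b j = a j) : Sat V b D := by
  obtain ⟨l, hl, h1, h2⟩ := h
  exact ⟨l, hl, hUV h1, by rw [hab _ h1, h2]⟩

variable (N : X → Fin d → Y) (r θ μ : ℕ)

/-- `D` is valid in the world `x` -/
def Valid (x : X → F2) (D : Clause Y) : Prop := ∀ a, LC N r x (vars D) a → Sat (vars D) a D

/-- `D` is wide or not valid in the world `x` -/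
def Bad (x : X → F2) (D : Clause Y) : Prop := r < 2 * (vars D).card ∨ ¬ Valid N r x D

/-- the configuration `M` is good in the world `x` -/
def Good (M : Finset (Clause Y)) (x : X → F2) : Prop :=
  ∀ (Δ : Finset Y) (a : Y → F2), Δ.card ≤ r → rk N r Δ ≤ θ → LC N r x Δ a →
    ∃ (U : Finset Y) (b : Y → F2), Δ ⊆ U ∧ U.card ≤ r ∧ (∀ j ∈ Δ, b j = a j) ∧ LC N r x U b ∧
      ∀ D ∈ M, Bad N r x D → Sat U b D

variable {N r θ μ}

theorem K_empty (hE : Expands N r) {v : X → F2} (hv : v ∈ K N r ∅) : v = 0 := by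
  rw [mem_K hE (by simp)] at hv
  have h := two_supp_le hE hv.1 hv.2
  rw [card_empty] at h
  have h1 : supp v = ∅ := by
    rw [← card_eq_zero]
    omega
  funext u
  by_contra hu
  have : u ∈ supp v := mem_supp.mpr hu
  rw [h1] at this
  simp at this

theorem LC_empty (hE : Expands N r) (x : X → F2) (a : Y → F2) : LC N r x ∅ a := by
  intro v hv
  rw [K_empty hE hv, map_zero, zero_dotProduct, zero_dotProduct]

theorem Bs_empty (hE : Expands N r) : Bs N r (∅ : Finset Y) = ∅ := by
  rw [← card_eq_zero]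
  have := Bs_card hE (U := ∅) (by simp)
  rw [card_empty] at this
  omega

theorem not_good_of_bot (hE : Expands N r) {M : Finset (Clause Y)} (hM : ∅ ∈ M) (x : X → F2) :
    ¬ Good N r θ M x := by
  intro h
  obtain ⟨U, b, -, -, -, -, h1⟩ := h ∅ 0 (by simp)
    ((rk_le_card).trans (by simp)) (LC_empty hE x 0)
  obtain ⟨l, hl, -⟩ := h1 ∅ hM (Or.inr fun h2 => by
    obtain ⟨l, hl, -⟩ := h2 0 (LC_empty hE x 0)
    simp at hl)
  simp at hl

theorem good_empty (x : X → F2) : Good N r θ ∅ x := fun Δ a h1 _ h3 =>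
  ⟨Δ, a, Subset.refl _, h1, fun _ _ => rfl, h3, fun D hD => by simp at hD⟩

theorem good_mono {M M' : Finset (Clause Y)} (h : M' ⊆ M) {x : X → F2} (hM : Good N r θ M x) :
    Good N r θ M' x := by
  intro Δ a h1 h2 h3
  obtain ⟨U, b, h4, h5, h6, h7, h8⟩ := hM Δ a h1 h2 h3
  exact ⟨U, b, h4, h5, h6, h7, fun D hD => h8 D (h hD)⟩

theorem good_insert_valid {M : Finset (Clause Y)} {x : X → F2} (hM : Good N r θ M x)
    {E : Clause Y} (hE : ¬ Bad N r x E) : Good N r θ (insert E M) x := by
  intro Δ a h1 h2 h3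
  obtain ⟨U, b, h4, h5, h6, h7, h8⟩ := hM Δ a h1 h2 h3
  refine ⟨U, b, h4, h5, h6, h7, fun D hD hD' => ?_⟩
  rcases mem_insert.mp hD with rfl | hD
  · exact absurd hD' hE
  · exact h8 D hD hD'

/-- in a good configuration bad clauses which are not wide have large rank -/
theorem bad_rank {M : Finset (Clause Y)} {x : X → F2} (hM : Good N r θ M x)
    {D : Clause Y} (hD : D ∈ M) (hb : Bad N r x D) (h2 : 2 * (vars D).card ≤ r) :
    θ < rk N r (vars D) := by
  by_contra hcon
  push Not at hcon
  have hnv : ¬ Valid N r x D := by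
    rcases hb with h | h
    · omega
    · exact h
  unfold Valid at hnv
  push Not at hnv
  obtain ⟨a, ha, ha'⟩ := hnv
  obtain ⟨U, b, h3, h4, h5, h6, h7⟩ := hM (vars D) a (by omega) hcon ha
  obtain ⟨l, hl, h8, h9⟩ := h7 D hD hb
  exact ha' ⟨l, hl, mem_vars hl, by rw [← h5 _ (mem_vars hl), h9]⟩

theorem bad_large {M : Finset (Clause Y)} {x : X → F2} (hr : 100 * (θ + (μ + 1) ^ 2) ≤ r)
    (hM : Good N r θ M x) {D : Clause Y} (hD : D ∈ M) (hb : Bad N r x D) : θ + 1 ≤ D.card := by
  have h1 := card_vars_le D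
  by_cases h2 : 2 * (vars D).card ≤ r
  · have h3 := bad_rank hM hD hb h2
    have h4 : rk N r (vars D) ≤ (vars D).card := rk_le_card
    omega
  · have : 0 < (μ + 1) ^ 2 := by positivity
    omega

theorem card_mul_le_space {M : Finset (Clause Y)} {c : ℕ} (A : Finset (Clause Y)) (hA : A ⊆ M)
    (h : ∀ D ∈ A, c ≤ D.card) : A.card * c ≤ totalSpace M := by
  unfold totalSpace
  calc A.card * c = ∑ _D ∈ A, c := by rw [sum_const, smul_eq_mul]
    _ ≤ ∑ D ∈ A, D.card := sum_le_sum h
    _ ≤ ∑ D ∈ M, D.card := sum_le_sum_of_subset hA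

theorem card_le_mu {M : Finset (Clause Y)} (hT : totalSpace M < (θ + 1) * (μ + 1))
    (A : Finset (Clause Y)) (hA : A ⊆ M) (h : ∀ D ∈ A, θ + 1 ≤ D.card) : A.card ≤ μ := by
  have h1 := card_mul_le_space A hA h
  by_contra hcon
  push Not at hcon
  have h2 : (μ + 1) * (θ + 1) ≤ A.card * (θ + 1) := Nat.mul_le_mul_right _ hcon
  have h3 : (μ + 1) * (θ + 1) = (θ + 1) * (μ + 1) := Nat.mul_comm _ _
  omega

/-- choose one satisfied literal of each clause of a set -/
theorem pick {Δ U : Finset Y} {b : Y → F2} (hΔ : Δ ⊆ U) (A : Finset (Clause Y))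
    (h : ∀ D ∈ A, Sat U b D) :
    ∃ U₀, Δ ⊆ U₀ ∧ U₀ ⊆ U ∧ U₀ ⊆ Δ ∪ A.biUnion vars ∧ U₀.card ≤ Δ.card + A.card ∧
      ∀ D ∈ A, Sat U₀ b D := by
  induction A using Finset.induction_on with
  | empty => exact ⟨Δ, Subset.refl _, hΔ, by simp, by simp, fun D hD => by simp at hD⟩
  | insert D A hD ih =>
    obtain ⟨U₀, h1, h2, h3, h4, h5⟩ := ih fun D' hD' => h D' (mem_insert_of_mem hD')
    obtain ⟨l, hl, h6, h7⟩ := h D (mem_insert_self D A)
    refine ⟨insert l.1 U₀, h1.trans (subset_insert _ _), ?_, ?_, ?_, ?_⟩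
    · intro i hi
      rcases mem_insert.mp hi with rfl | hi
      · exact h6
      · exact h2 hi
    · intro i hi
      rw [biUnion_insert]
      rcases mem_insert.mp hi with rfl | hi
      · exact mem_union_right _ (mem_union_left _ (mem_vars hl))
      · rcases mem_union.mp (h3 hi) with h | h
        · exact mem_union_left _ h
        · exact mem_union_right _ (mem_union_right _ h)
    · rw [card_insert_of_notMem hD]
      have := card_insert_le l.1 U₀
      omega
    · intro D' hD'
      rcases mem_insert.mp hD' with rfl | hD'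
      · exact ⟨l, hl, mem_insert_self _ _, h7⟩
      · exact (h5 D' hD').mono (subset_insert _ _) fun _ _ => rfl

section filter

open Classical

/-- the bad clauses of a configuration -/
noncomputable def bads (N : X → Fin d → Y) (r : ℕ) (M : Finset (Clause Y)) (x : X → F2) :
    Finset (Clause Y) := M.filter fun D => Bad N r x D

theorem mem_bads {M : Finset (Clause Y)} {x : X → F2} {D : Clause Y} :
    D ∈ bads N r M x ↔ D ∈ M ∧ Bad N r x D := by simp [bads]

theorem card_bads {M : Finset (Clause Y)} {x : X → F2} (hr : 100 * (θ + (μ + 1) ^ 2) ≤ r)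
    (hT : totalSpace M < (θ + 1) * (μ + 1)) (hM : Good N r θ M x) : (bads N r M x).card ≤ μ :=
  card_le_mu hT _ (fun _ hD => (mem_bads.mp hD).1)
    fun _ hD => bad_large hr hM (mem_bads.mp hD).1 (mem_bads.mp hD).2

end filter

theorem good_small {M : Finset (Clause Y)} {x : X → F2} (hE : Expands N r)
    (hr : 100 * (θ + (μ + 1) ^ 2) ≤ r)
    (hT : totalSpace M < (θ + 1) * (μ + 1)) (hM : Good N r θ M x) {Δ : Finset Y} {a : Y → F2}
    (h1 : Δ.card ≤ r) (h2 : rk N r Δ ≤ θ) (h3 : LC N r x Δ a) :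
    ∃ (U : Finset Y) (b : Y → F2), Δ ⊆ U ∧ U.card ≤ 2 * θ + μ ∧ (∀ j ∈ Δ, b j = a j) ∧
      LC N r x U b ∧ ∀ D ∈ M, Bad N r x D → Sat U b D := by
  obtain ⟨U, b, h4, h5, h6, h7, h8⟩ := hM Δ a h1 h2 h3
  obtain ⟨U₀, h9, h10, -, h11, h12⟩ := pick h4 (bads N r M x) fun D hD =>
    h8 D (mem_bads.mp hD).1 (mem_bads.mp hD).2
  have h13 := card_bads hr hT hM
  have h14 := card_le_two_rk hE h1
  exact ⟨U₀, b, h9, by omega, h6, LC_mono h10 h7, fun D hD hb => h12 D (mem_bads.mpr ⟨hD, hb⟩)⟩

/-- the resolution step -/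
theorem good_insert_resolvent {M : Finset (Clause Y)} {x : X → F2} (hE : Expands N r)
    (hr : 100 * (θ + (μ + 1) ^ 2) ≤ r)
    (hT : totalSpace M < (θ + 1) * (μ + 1)) (hM : Good N r θ M x) {C₁ C₂ E : Clause Y}
    (hC₁ : C₁ ∈ M) (hC₂ : C₂ ∈ M) (h : IsResolvent C₁ C₂ E) : Good N r θ (insert E M) x := by
  obtain ⟨j, C, D, rfl, rfl, rfl⟩ := h
  intro Δ a h1 h2 h3
  obtain ⟨U, b, h4, h5, h6, h7, h8⟩ := good_small hE hr hT hM h1 h2 h3
  have hμ : 0 < (μ + 1) ^ 2 := by positivity
  have hμ' : μ + 1 ≤ (μ + 1) ^ 2 := Nat.le_self_pow (by norm_num) _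
  have hU' : (insert j U).card ≤ r := (card_insert_le _ _).trans (by omega)
  obtain ⟨b', h9, h10⟩ := LC_extend hE (subset_insert j U) hU' h7
  -- common part: given a clause `P` of the configuration one of whose literals is falsified
  have key : ∀ (P : Clause Y) (s : Bool), P ∈ M → b' j ≠ tb s → (∀ l ∈ P, l ≠ (j, s) → l ∈ C ∪ D) →
      ∃ (U : Finset Y) (b : Y → F2), Δ ⊆ U ∧ U.card ≤ r ∧ (∀ j ∈ Δ, b j = a j) ∧
        LC N r x U b ∧ ∀ D' ∈ insert (C ∪ D) M, Bad N r x D' → Sat U b D' := by
    intro P s hP hs hPE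
    by_cases hbad : Bad N r x P
    · obtain ⟨l, hl, h11, h12⟩ := h8 P hP hbad
      have h13 : l ∈ C ∪ D := by
        refine hPE l hl ?_
        rintro rfl
        apply hs
        rw [h9 _ h11]
        exact h12
      refine ⟨U, b, h4, by omega, h6, h7, fun D' hD' hb' => ?_⟩
      rcases mem_insert.mp hD' with rfl | hD'
      · exact ⟨l, h13, h11, h12⟩
      · exact h8 D' hD' hb'
    · unfold Bad at hbad
      push Not at hbad
      obtain ⟨hsize, hvalid⟩ := hbad
      have hV : (insert j U ∪ vars P).card ≤ r := by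
        have h14 := card_union_le (insert j U) (vars P)
        have h15 := card_insert_le j U
        omega
      obtain ⟨b'', h16, h17⟩ := LC_extend hE subset_union_left hV h10
      obtain ⟨l, hl, h18, h19⟩ := hvalid b'' (LC_mono subset_union_right h17)
      have h20 : l ∈ C ∪ D := by
        refine hPE l hl ?_
        rintro rfl
        apply hs
        rw [← h16 _ (mem_insert_self j U)]
        exact h19
      refine ⟨insert j U ∪ vars P, b'', ?_, hV, ?_, h17, fun D' hD' hb' => ?_⟩
      · exact h4.trans ((subset_insert j U).trans subset_union_left)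
      · intro i hi
        rw [h16 i (mem_insert_of_mem (h4 hi)), h9 i (h4 hi), h6 i hi]
      · rcases mem_insert.mp hD' with rfl | hD'
        · exact ⟨l, h20, mem_union_right _ h18, h19⟩
        · refine (h8 D' hD' hb').mono ((subset_insert j U).trans subset_union_left) ?_
          intro i hi
          rw [h16 i (mem_insert_of_mem hi), h9 i hi]
  rcases f2_cases (b' j) with h0 | h1'
  · refine key _ true hC₁ (by rw [h0]; simp [tb]) ?_
    intro l hl hne
    rcases mem_insert.mp hl with rfl | hl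
    · exact absurd rfl hne
    · exact mem_union_left _ hl
  · refine key _ false hC₂ (by rw [h1']; simp [tb]) ?_
    intro l hl hne
    rcases mem_insert.mp hl with rfl | hl
    · exact absurd rfl hne
    · exact mem_union_right _ hl

end Pool.Agent.J6H94.TSp
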