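import Mathlib

/-!
# Sparse linear maps over the field with two elements, with boundary expansion

`N : X → Fin d → Y` is a bipartite multigraph with left degree `d`. The row of `u : X` is the vector
`∑ a, e (N u a)` over the field with two elements, `S N v` is the combination of the rows with
coefficients `v`. If all small sets of left vertices have a large boundary, then small sets of right
vertices behave like generic sets of variables of the system of equations `row u ⬝ᵥ a = x u`.
-/

set_option autoImplicit false
set_option linter.unusedSectionVars false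

open Finset

namespace Pool.Agent.J6H94.TSp

abbrev F2 := ZMod 2

theorem f2_cases (a : F2) : a = 0 ∨ a = 1 := by
  fin_cases a
  · left; rfl
  · right; rfl

theorem f2_ne_zero {a : F2} (h : a ≠ 0) : a = 1 := (f2_cases a).resolve_left h

variable {X Y : Type} [Fintype X] [DecidableEq X] [Fintype Y] [DecidableEq Y] {d : ℕ}

/-- the row of `u` -/
def row (N : X → Fin d → Y) (u : X) (j : Y) : F2 := ∑ a : Fin d, if N u a = j then 1 else 0

/-- the combination of the rows with coefficients `v` -/
def S (N : X → Fin d → Y) : (X → F2) →ₗ[F2] (Y → F2) where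
  toFun v j := ∑ u, v u * row N u j
  map_add' v w := by
    funext j
    simp only [Pi.add_apply, add_mul, sum_add_distrib]
  map_smul' c v := by
    funext j
    simp only [Pi.smul_apply, smul_eq_mul, RingHom.id_apply, mul_sum, mul_assoc]

theorem S_apply (N : X → Fin d → Y) (v : X → F2) (j : Y) : S N v j = ∑ u, v u * row N u j := rfl

/-- the support -/
def supp (v : X → F2) : Finset X := univ.filter fun u => v u ≠ 0

theorem mem_supp {v : X → F2} {u : X} : u ∈ supp v ↔ v u ≠ 0 := by simp [supp]

/-- the right vertices with exactly one edge to `B` -/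
def bd (N : X → Fin d → Y) (B : Finset X) : Finset Y :=
  univ.filter fun j => ((B ×ˢ (univ : Finset (Fin d))).filter fun p => N p.1 p.2 = j).card = 1

/-- boundary expansion by the factor two for sets of size at most `r` -/
def Expands (N : X → Fin d → Y) (r : ℕ) : Prop :=
  ∀ B : Finset X, B.card ≤ r → 2 * B.card ≤ (bd N B).card

theorem S_eq_card (N : X → Fin d → Y) (v : X → F2) (j : Y) :
    S N v j = ((((supp v) ×ˢ (univ : Finset (Fin d))).filter fun p => N p.1 p.2 = j).card : F2) := by
  rw [S_apply]
  have h1 : ∀ u, v u * row N u j = if u ∈ supp v then row N u j else 0 := by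
    intro u
    by_cases h : v u = 0
    · simp [mem_supp, h]
    · rw [if_pos (mem_supp.mpr h), f2_ne_zero h, one_mul]
  simp_rw [h1]
  rw [← sum_filter, card_filter, Nat.cast_sum, sum_product]
  have h2 : univ.filter (fun u => u ∈ supp v) = supp v := by ext; simp
  rw [h2]
  refine sum_congr rfl fun u _ => ?_
  unfold row
  refine sum_congr rfl fun a _ => ?_
  split_ifs <;> simp

theorem S_of_bd (N : X → Fin d → Y) {v : X → F2} {j : Y} (h : j ∈ bd N (supp v)) :
    S N v j ≠ 0 := by
  rw [bd, mem_filter] at h
  rw [S_eq_card, h.2]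
  simp

/-- the boundary of a union is in the union of the boundaries -/
theorem bd_union (N : X → Fin d → Y) {B C : Finset X} {j : Y} (h : j ∈ bd N (B ∪ C)) :
    j ∈ bd N B ∨ j ∈ bd N C := by
  rw [bd, mem_filter, card_eq_one] at h
  obtain ⟨-, p, hp⟩ := h
  have hp' : p ∈ ((B ∪ C) ×ˢ (univ : Finset (Fin d))).filter fun p => N p.1 p.2 = j := by
    rw [hp]; exact mem_singleton_self p
  rw [mem_filter, mem_product, mem_union] at hp'
  have key : ∀ D : Finset X, D ⊆ B ∪ C → p.1 ∈ D → j ∈ bd N D := by
    intro D hD hpD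
    rw [bd, mem_filter, card_eq_one]
    refine ⟨mem_univ _, p, ?_⟩
    apply Subset.antisymm
    · rw [← hp]
      exact filter_subset_filter _ (product_subset_product hD (Subset.refl _))
    · rw [singleton_subset_iff, mem_filter, mem_product]
      exact ⟨⟨hpD, mem_univ _⟩, hp'.2⟩
  rcases hp'.1.1 with h | h
  · exact Or.inl (key B subset_union_left h)
  · exact Or.inr (key C subset_union_right h)

/-- the combinations of at most `r` rows which are supported in `U` (and their span) -/
def K (N : X → Fin d → Y) (r : ℕ) (U : Finset Y) : Submodule F2 (X → F2) :=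
  Submodule.span F2 {v | (supp v).card ≤ r ∧ ∀ j, j ∉ U → S N v j = 0}

variable {N : X → Fin d → Y} {r : ℕ}

theorem K_mono {U V : Finset Y} (h : U ⊆ V) : K N r U ≤ K N r V :=
  Submodule.span_mono fun _ hv => ⟨hv.1, fun j hj => hv.2 j fun h' => hj (h h')⟩

theorem bd_subset {U : Finset Y} {v : X → F2} (hv : ∀ j, j ∉ U → S N v j = 0) :
    bd N (supp v) ⊆ U := by
  intro j hj
  by_contra h
  exact S_of_bd N hj (hv j h)

theorem two_supp_le (hE : Expands N r) {U : Finset Y} {v : X → F2}
    (h1 : (supp v).card ≤ r) (hv : ∀ j, j ∉ U → S N v j = 0) : 2 * (supp v).card ≤ U.card :=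
  (hE _ h1).trans (card_le_card (bd_subset hv))

theorem supp_add (v w : X → F2) : supp (v + w) ⊆ supp v ∪ supp w := by
  intro u hu
  rw [mem_supp] at hu
  rw [mem_union, mem_supp, mem_supp]
  by_contra h
  push Not at h
  exact hu (by rw [Pi.add_apply, h.1, h.2, add_zero])

theorem supp_smul (c : F2) (v : X → F2) : supp (c • v) ⊆ supp v := by
  intro u hu
  rw [mem_supp] at hu ⊢
  intro h
  exact hu (by rw [Pi.smul_apply, h, smul_zero])

theorem mem_K (hE : Expands N r) {U : Finset Y} (hU : U.card ≤ r) {v : X → F2} :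
    v ∈ K N r U ↔ (supp v).card ≤ r ∧ ∀ j, j ∉ U → S N v j = 0 := by
  constructor
  · intro h
    induction h using Submodule.span_induction with
    | mem v hv => exact hv
    | zero =>
      refine ⟨?_, fun j _ => by rw [map_zero]; rfl⟩
      have : supp (0 : X → F2) = ∅ := by ext; simp [supp]
      rw [this]; simp
    | add v w _ _ hv hw =>
      refine ⟨?_, fun j hj => by rw [map_add, Pi.add_apply, hv.2 j hj, hw.2 j hj, add_zero]⟩
      have h1 := two_supp_le hE hv.1 hv.2
      have h2 := two_supp_le hE hw.1 hw.2
      have h3 := (card_le_card (supp_add v w)).trans (card_union_le _ _)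
      omega
    | smul c v _ hv =>
      refine ⟨(card_le_card (supp_smul c v)).trans hv.1, fun j hj => ?_⟩
      rw [map_smul, Pi.smul_apply, hv.2 j hj, smul_zero]
  · intro h
    exact Submodule.subset_span h

theorem K_inf (hE : Expands N r) {U V : Finset Y} (hU : U.card ≤ r) (hV : V.card ≤ r) :
    K N r U ⊓ K N r V = K N r (U ∩ V) := by
  have hUV : (U ∩ V).card ≤ r := (card_le_card inter_subset_left).trans hU
  ext v
  rw [Submodule.mem_inf, mem_K hE hU, mem_K hE hV, mem_K hE hUV]
  constructor
  · rintro ⟨⟨h1, h2⟩, -, h3⟩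
    refine ⟨h1, fun j hj => ?_⟩
    by_cases h : j ∈ U
    · exact h3 j fun h' => hj (mem_inter.mpr ⟨h, h'⟩)
    · exact h2 j h
  · rintro ⟨h1, h2⟩
    exact ⟨⟨h1, fun j hj => h2 j fun h' => hj (mem_inter.mp h').1⟩,
      h1, fun j hj => h2 j fun h' => hj (mem_inter.mp h').2⟩

/-- the left vertices which occur in the combinations of `K U` -/
noncomputable def Bs (N : X → Fin d → Y) (r : ℕ) (U : Finset Y) : Finset X :=
  open Classical in univ.filter fun u => ∃ v ∈ K N r U, v u ≠ 0

theorem mem_Bs {U : Finset Y} {u : X} : u ∈ Bs N r U ↔ ∃ v ∈ K N r U, v u ≠ 0 := by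
  simp [Bs]

theorem Bs_mono {U V : Finset Y} (h : U ⊆ V) : Bs N r U ⊆ Bs N r V := by
  intro u hu
  obtain ⟨v, hv, h1⟩ := mem_Bs.mp hu
  exact mem_Bs.mpr ⟨v, K_mono h hv, h1⟩

theorem Bs_card (hE : Expands N r) {U : Finset Y} (hU : U.card ≤ r) :
    2 * (Bs N r U).card ≤ U.card := by
  classical
  have key : ∀ C : Finset X, C ⊆ Bs N r U →
      ∃ C', C ⊆ C' ∧ 2 * C'.card ≤ U.card ∧ bd N C' ⊆ U := by
    intro C
    induction C using Finset.induction_on with
    | empty =>
      intro _
      refine ⟨∅, Subset.refl _, by simp, ?_⟩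
      intro j hj
      simp [bd] at hj
    | insert u C hu ih =>
      intro hC
      obtain ⟨C', h1, h2, h3⟩ := ih fun w hw => hC (mem_insert_of_mem hw)
      obtain ⟨v, hv, hvu⟩ := mem_Bs.mp (hC (mem_insert_self u C))
      rw [mem_K hE hU] at hv
      have h4 := two_supp_le hE hv.1 hv.2
      refine ⟨C' ∪ supp v, ?_, ?_, ?_⟩
      · intro w hw
        rcases mem_insert.mp hw with rfl | hw
        · exact mem_union_right _ (mem_supp.mpr hvu)
        · exact mem_union_left _ (h1 hw)
      · have h5 : (C' ∪ supp v).card ≤ r := (card_union_le _ _).trans (by omega)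
        refine (hE _ h5).trans (card_le_card ?_)
        intro j hj
        rcases bd_union N hj with h | h
        · exact h3 h
        · exact bd_subset hv.2 h
      · intro j hj
        rcases bd_union N hj with h | h
        · exact h3 h
        · exact bd_subset hv.2 h
  obtain ⟨C', h1, h2, -⟩ := key _ (Subset.refl _)
  exact (Nat.mul_le_mul_left 2 (card_le_card h1)).trans h2

/-- the number of free parameters of the assignments to `U` -/
noncomputable def rk (N : X → Fin d → Y) (r : ℕ) (U : Finset Y) : ℕ :=
  U.card - Module.finrank F2 (K N r U)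

theorem finrank_K_le (hE : Expands N r) {U : Finset Y} (hU : U.card ≤ r) :
    2 * Module.finrank F2 (K N r U) ≤ U.card := by
  classical
  refine le_trans (Nat.mul_le_mul_left 2 ?_) (Bs_card hE hU)
  let f : K N r U →ₗ[F2] (Bs N r U → F2) :=
    { toFun := fun v i => v.1 i.1
      map_add' := fun v w => by funext i; rfl
      map_smul' := fun c v => by funext i; rfl }
  have hf : Function.Injective f := by
    intro v w hvw
    apply Subtype.ext
    funext u
    by_cases hu : u ∈ Bs N r U
    · exact congrFun hvw ⟨u, hu⟩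
    · have h1 : v.1 u = 0 := by
        by_contra h
        exact hu (mem_Bs.mpr ⟨v.1, v.2, h⟩)
      have h2 : w.1 u = 0 := by
        by_contra h
        exact hu (mem_Bs.mpr ⟨w.1, w.2, h⟩)
      rw [h1, h2]
  have h := LinearMap.finrank_le_finrank_of_injective hf
  rw [Module.finrank_fintype_fun_eq_card, Fintype.card_coe] at h
  exact h

theorem card_le_two_rk (hE : Expands N r) {U : Finset Y} (hU : U.card ≤ r) :
    U.card ≤ 2 * rk N r U := by
  have := finrank_K_le hE hU
  unfold rk
  omega

theorem rk_le_card {U : Finset Y} : rk N r U ≤ U.card := Nat.sub_le _ _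

theorem rk_add (hE : Expands N r) {U : Finset Y} (hU : U.card ≤ r) :
    rk N r U + Module.finrank F2 (K N r U) = U.card := by
  have := finrank_K_le hE hU
  unfold rk
  omega

/-- submodularity -/
theorem rk_submod (hE : Expands N r) {U V : Finset Y} (hUV : (U ∪ V).card ≤ r) :
    rk N r (U ∪ V) + rk N r (U ∩ V) ≤ rk N r U + rk N r V := by
  have hU : U.card ≤ r := (card_le_card subset_union_left).trans hUV
  have hV : V.card ≤ r := (card_le_card subset_union_right).trans hUV
  have hI : (U ∩ V).card ≤ r := (card_le_card inter_subset_left).trans hU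
  have h1 := rk_add hE hU
  have h2 := rk_add hE hV
  have h3 := rk_add hE hI
  have h4 := rk_add hE hUV
  have h5 := Submodule.finrank_sup_add_finrank_inf_eq (K N r U) (K N r V)
  rw [K_inf hE hU hV] at h5
  have h6 : Module.finrank F2 ↥(K N r U ⊔ K N r V) ≤ Module.finrank F2 (K N r (U ∪ V)) :=
    Submodule.finrank_mono (sup_le (K_mono subset_union_left) (K_mono subset_union_right))
  have h7 := card_union_add_card_inter U V
  omega

/-- the restriction of the combinations of `K V` to the coordinates outside of `U` -/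
def restr (N : X → Fin d → Y) (r : ℕ) (U V : Finset Y) : K N r V →ₗ[F2] (Y → F2) where
  toFun v j := if j ∈ V \ U then S N v.1 j else 0
  map_add' v w := by
    funext j
    simp only [Submodule.coe_add, map_add, Pi.add_apply]
    split_ifs <;> simp
  map_smul' c v := by
    funext j
    simp only [Submodule.coe_smul, map_smul, Pi.smul_apply, RingHom.id_apply, smul_eq_mul]
    split_ifs <;> simp

theorem restr_ker (hE : Expands N r) {U V : Finset Y} (h : U ⊆ V) (hV : V.card ≤ r)
    (v : K N r V) : restr N r U V v = 0 ↔ v.1 ∈ K N r U := by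
  have hU : U.card ≤ r := (card_le_card h).trans hV
  have hv := (mem_K hE hV).mp v.2
  rw [mem_K hE hU]
  constructor
  · intro h1
    refine ⟨hv.1, fun j hj => ?_⟩
    by_cases hj' : j ∈ V
    · have := congrFun h1 j
      simp only [restr, LinearMap.coe_mk, AddHom.coe_mk, mem_sdiff, Pi.zero_apply] at this
      rwa [if_pos ⟨hj', hj⟩] at this
    · exact hv.2 j hj'
  · intro h1
    funext j
    simp only [restr, LinearMap.coe_mk, AddHom.coe_mk, mem_sdiff, Pi.zero_apply]
    split_ifs with h2
    · exact h1.2 j h2.2
    · rfl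

/-- the main lemma of linear algebra: a functional on `K V` which vanishes on `K U` is given by a
vector supported in `V \ U` -/
theorem solve (hE : Expands N r) {U V : Finset Y} (h : U ⊆ V) (hV : V.card ≤ r)
    (φ : (X → F2) →ₗ[F2] F2) (hφ : ∀ v ∈ K N r U, φ v = 0) :
    ∃ η : Y → F2, (∀ j, j ∉ V \ U → η j = 0) ∧ ∀ v ∈ K N r V, S N v ⬝ᵥ η = φ v := by
  let φ' : Module.Dual F2 (K N r V) := φ.comp (K N r V).subtype
  have h1 : φ' ∈ (LinearMap.ker (restr N r U V)).dualAnnihilator := by
    rw [Submodule.mem_dualAnnihilator]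
    intro v hv
    rw [LinearMap.mem_ker, restr_ker hE h hV] at hv
    exact hφ _ hv
  rw [← LinearMap.range_dualMap_eq_dualAnnihilator_ker] at h1
  obtain ⟨ψ, hψ⟩ := h1
  refine ⟨fun j => if j ∈ V \ U then ψ (Pi.single j 1) else 0, fun j hj => if_neg hj, ?_⟩
  intro v hv
  have h2 : φ v = ψ (restr N r U V ⟨v, hv⟩) := by
    have := LinearMap.congr_fun hψ ⟨v, hv⟩
    rw [LinearMap.dualMap_apply] at this
    exact this.symm
  rw [h2]
  have h3 : ∀ z : Y → F2, ψ z = ∑ j, z j * ψ (Pi.single j 1) := by
    intro z
    conv_lhs => rw [LinearMap.pi_apply_eq_sum_univ ψ z]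
    refine sum_congr rfl fun j _ => ?_
    rw [smul_eq_mul]
    congr 2
    funext i
    by_cases hij : i = j
    · subst hij; simp
    · simp [hij, Ne.symm hij]
  rw [h3, dotProduct]
  refine sum_congr rfl fun j _ => ?_
  simp only [restr, LinearMap.coe_mk, AddHom.coe_mk]
  split_ifs <;> simp

theorem finrank_K_mono' (hE : Expands N r) {U V : Finset Y} (h : U ⊆ V) (hV : V.card ≤ r) :
    Module.finrank F2 (K N r V) ≤ Module.finrank F2 (K N r U) + (V \ U).card := by
  classical
  have h0 := LinearMap.finrank_range_add_finrank_ker (restr N r U V)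
  have h1 : Module.finrank F2 (LinearMap.ker (restr N r U V)) ≤ Module.finrank F2 (K N r U) := by
    let f : LinearMap.ker (restr N r U V) →ₗ[F2] K N r U :=
      { toFun := fun v => ⟨v.1.1, (restr_ker hE h hV v.1).mp (LinearMap.mem_ker.mp v.2)⟩
        map_add' := fun v w => rfl
        map_smul' := fun c v => rfl }
    have hf : Function.Injective f := by
      intro v w hvw
      apply Subtype.ext
      apply Subtype.ext
      have h2 : (f v).1 = (f w).1 := by rw [hvw]
      exact h2
    exact LinearMap.finrank_le_finrank_of_injective hf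
  have h2 : Module.finrank F2 (LinearMap.range (restr N r U V)) ≤ (V \ U).card := by
    let g : LinearMap.range (restr N r U V) →ₗ[F2] (↥(V \ U) → F2) :=
      { toFun := fun z i => z.1 i.1
        map_add' := fun v w => rfl
        map_smul' := fun c v => rfl }
    have hg : Function.Injective g := by
      rintro ⟨z, v, rfl⟩ ⟨w, v', rfl⟩ hzw
      apply Subtype.ext
      funext j
      by_cases hj : j ∈ V \ U
      · exact congrFun hzw ⟨j, hj⟩
      · simp only [restr, LinearMap.coe_mk, AddHom.coe_mk]
        rw [if_neg hj, if_neg hj]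
    have := LinearMap.finrank_le_finrank_of_injective hg
    rwa [Module.finrank_fintype_fun_eq_card, Fintype.card_coe] at this
  omega

theorem rk_mono (hE : Expands N r) {U V : Finset Y} (h : U ⊆ V) (hV : V.card ≤ r) :
    rk N r U ≤ rk N r V := by
  have hU : U.card ≤ r := (card_le_card h).trans hV
  have h1 := rk_add hE hU
  have h2 := rk_add hE hV
  have h3 := finrank_K_mono' hE h hV
  have h4 := card_sdiff_add_card_eq_card h
  omega

theorem rk_union_le (hE : Expands N r) {U V : Finset Y} (hV : (U ∪ V).card ≤ r) :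
    rk N r (U ∪ V) ≤ rk N r U + V.card := by
  have h1 := rk_submod hE hV
  have h2 : rk N r V ≤ V.card := rk_le_card
  omega

/-- if the rank grows then there is a free variable -/
theorem exists_free (hE : Expands N r) {U D : Finset Y} (hUD : (U ∪ D).card ≤ r)
    (h : rk N r U < rk N r (U ∪ D)) : ∃ j ∈ D, j ∉ U ∧ K N r (insert j U) = K N r U := by
  classical
  by_contra hcon
  push Not at hcon
  have hU : U.card ≤ r := (card_le_card subset_union_left).trans hUD
  have key : ∀ D' : Finset Y, D' ⊆ D → rk N r (U ∪ D') ≤ rk N r U := by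
    intro D'
    induction D' using Finset.induction_on with
    | empty => intro _; simp
    | insert j D' hj ih =>
      intro hD'
      have hj' : j ∈ D := hD' (mem_insert_self _ _)
      have hD'' : D' ⊆ D := fun i hi => hD' (mem_insert_of_mem hi)
      by_cases hjU : j ∈ U
      · have : U ∪ insert j D' = U ∪ D' := by
          ext i; simp only [mem_union, mem_insert]
          constructor
          · rintro (h | rfl | h)
            · exact Or.inl h
            · exact Or.inl hjU
            · exact Or.inr h
          · rintro (h | h)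
            · exact Or.inl h
            · exact Or.inr (Or.inr h)
        rw [this]
        exact ih hD''
      · have h1 : (insert j U).card ≤ r := by
          refine le_trans (card_le_card ?_) hUD
          intro i hi
          rcases mem_insert.mp hi with rfl | hi
          · exact mem_union_right _ hj'
          · exact mem_union_left _ hi
        have h2 : Module.finrank F2 (K N r U) < Module.finrank F2 (K N r (insert j U)) :=
          Submodule.finrank_lt_finrank_of_lt
            (lt_of_le_of_ne (K_mono (subset_insert j U)) fun h => hcon j hj' hjU h.symm)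
        have h3 := rk_add hE h1
        have h4 := rk_add hE hU
        have h5 := card_insert_of_notMem hjU
        have h6 : (U ∪ D') ∪ insert j U = U ∪ insert j D' := by
          ext i; simp only [mem_union, mem_insert]; tauto
        have h7 : ((U ∪ D') ∪ insert j U).card ≤ r := by
          rw [h6]
          refine le_trans (card_le_card (union_subset_union (Subset.refl _) hD')) hUD
        have h8 := rk_submod hE h7
        rw [h6] at h8
        have h9 : rk N r U ≤ rk N r ((U ∪ D') ∩ insert j U) := by
          refine rk_mono hE ?_ ((card_le_card inter_subset_right).trans h1)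
          intro i hi
          exact mem_inter.mpr ⟨mem_union_left _ hi, mem_insert_of_mem hi⟩
        have h10 := ih hD''
        omega
  have := key D (Subset.refl _)
  omega

/-- `a` is locally consistent with `x` on `U` -/
def LC (N : X → Fin d → Y) (r : ℕ) (x : X → F2) (U : Finset Y) (a : Y → F2) : Prop :=
  ∀ v ∈ K N r U, S N v ⬝ᵥ a = v ⬝ᵥ x

theorem LC_mono {x : X → F2} {U V : Finset Y} (h : U ⊆ V) {a : Y → F2} (ha : LC N r x V a) :
    LC N r x U a := fun v hv => ha v (K_mono h hv)

theorem LC_congr (hE : Expands N r) {x : X → F2} {U : Finset Y} (hU : U.card ≤ r) {a b : Y → F2}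
    (hab : ∀ j ∈ U, a j = b j) (ha : LC N r x U a) : LC N r x U b := by
  intro v hv
  rw [← ha v hv]
  rw [mem_K hE hU] at hv
  refine sum_congr rfl fun j _ => ?_
  by_cases hj : j ∈ U
  · rw [hab j hj]
  · rw [hv.2 j hj, zero_mul, zero_mul]

theorem LC_world {x x' : X → F2} {U : Finset Y} (h : ∀ u ∈ Bs N r U, x u = x' u) {a : Y → F2}
    (ha : LC N r x U a) : LC N r x' U a := by
  intro v hv
  rw [ha v hv]
  refine sum_congr rfl fun u _ => ?_
  by_cases hu : v u = 0
  · rw [hu, zero_mul, zero_mul]
  · rw [h u (mem_Bs.mpr ⟨v, hv, hu⟩)]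

/-- extension of locally consistent assignments -/
theorem LC_extend (hE : Expands N r) {x : X → F2} {U V : Finset Y} (h : U ⊆ V) (hV : V.card ≤ r)
    {a : Y → F2} (ha : LC N r x U a) : ∃ b, (∀ j ∈ U, b j = a j) ∧ LC N r x V b := by
  let φ : (X → F2) →ₗ[F2] F2 :=
    { toFun := fun v => v ⬝ᵥ x - S N v ⬝ᵥ a
      map_add' := fun v w => by
        rw [map_add, add_dotProduct, add_dotProduct]; ring
      map_smul' := fun c v => by
        rw [map_smul, smul_dotProduct, smul_dotProduct, RingHom.id_apply, smul_sub] }
  obtain ⟨η, h1, h2⟩ := solve hE h hV φ fun v hv => by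
    change v ⬝ᵥ x - S N v ⬝ᵥ a = 0
    rw [ha v hv, sub_self]
  refine ⟨a + η, fun j hj => ?_, fun v hv => ?_⟩
  · rw [Pi.add_apply, h1 j fun h' => (mem_sdiff.mp h').2 hj, add_zero]
  · rw [dotProduct_add, h2 v hv]
    change S N v ⬝ᵥ a + (v ⬝ᵥ x - S N v ⬝ᵥ a) = v ⬝ᵥ x
    ring

/-- change of the world: `x` and `x'` agree on the closure of `Z`; there is a translation outside of
`Z` which maps the assignments for `x` to those for `x'` -/
theorem world_shift (hE : Expands N r) {x x' : X → F2} {Z V : Finset Y} (h : Z ⊆ V)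
    (hV : V.card ≤ r) (hx : ∀ u ∈ Bs N r Z, x u = x' u) :
    ∃ η : Y → F2, (∀ j ∈ Z, η j = 0) ∧
      ∀ U ⊆ V, ∀ a, LC N r x U a ↔ LC N r x' U (a + η) := by
  let φ : (X → F2) →ₗ[F2] F2 :=
    { toFun := fun v => v ⬝ᵥ (x' - x)
      map_add' := fun v w => by rw [add_dotProduct]
      map_smul' := fun c v => by rw [smul_dotProduct, RingHom.id_apply] }
  obtain ⟨η, h1, h2⟩ := solve hE h hV φ fun v hv => by
    change v ⬝ᵥ (x' - x) = 0
    refine sum_eq_zero fun u _ => ?_
    by_cases hu : v u = 0
    · rw [hu, zero_mul]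
    · rw [Pi.sub_apply, hx u (mem_Bs.mpr ⟨v, hv, hu⟩), sub_self, mul_zero]
  refine ⟨η, fun j hj => h1 j fun h' => (mem_sdiff.mp h').2 hj, fun U hU a => ?_⟩
  have h3 : ∀ v ∈ K N r U, S N v ⬝ᵥ (a + η) = S N v ⬝ᵥ a + (v ⬝ᵥ x' - v ⬝ᵥ x) := by
    intro v hv
    rw [dotProduct_add, h2 v (K_mono hU hv)]
    change _ + v ⬝ᵥ (x' - x) = _
    rw [dotProduct_sub]
  constructor
  · intro ha v hv
    rw [h3 v hv, ha v hv]
    ring
  · intro ha v hv
    have := ha v hv
    rw [h3 v hv] at this
    have h4 : S N v ⬝ᵥ a = (S N v ⬝ᵥ a + (v ⬝ᵥ x' - v ⬝ᵥ x)) - v ⬝ᵥ x' + v ⬝ᵥ x := by ring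
    rw [h4, this]
    ring

end Pool.Agent.J6H94.TSp
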