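import Pool.Agent.J6H94.TSp.Refute

/-!
# Every variable occurs in a substituted pebbling formula
-/

set_option autoImplicit false
set_option linter.unusedSectionVars false

open Finset

namespace Pool.Agent.J6H94.TSp

variable {X Y : Type} [Fintype X] [DecidableEq X] [Fintype Y] [DecidableEq Y] {d : ℕ}
variable {N : X → Fin d → Y} {r : ℕ}

theorem lift_of_LC (hr1 : 1 ≤ r) {x : X → F2} {V : Finset Y} {a : Y → F2} (ha : LC N r x V a)
    {u : X} (hu : univ.image (N u) ⊆ V) : lift N a u = x u := by
  have h2 : Pi.single u (1 : F2) ∈ K N r V := by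
    refine Submodule.subset_span ⟨?_, fun j hj => ?_⟩
    · have h3 : supp (Pi.single u (1 : F2)) = {u} := by
        ext w
        rw [mem_supp, mem_singleton]
        by_cases hw : w = u
        · subst hw; simp
        · simp [hw]
      rw [h3, card_singleton]
      exact hr1
    · rw [S_single]
      exact row_eq_zero hu hj
  have h3 := ha _ h2
  rw [S_single, single_dotProduct, one_mul] at h3
  exact h3

theorem exists_lift (hE : Expands N r) (hr1 : 1 ≤ r) (B : Finset X) (hB : d * B.card ≤ r)
    (x : X → F2) : ∃ b : Y → F2, ∀ u ∈ B, lift N b u = x u := by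
  obtain ⟨b, -, hb⟩ := LC_extend hE (empty_subset (Wof N B)) ((card_Wof_le N B).trans hB)
    (LC_empty hE x 0)
  exact ⟨b, fun u hu => lift_of_LC hr1 hb (image_subset_Wof N hu)⟩

theorem occurs (hE : Expands N r) (hr1 : 1 ≤ r) (hr : d * 3 ≤ r) (P : X → Finset X) (z : X)
    (hP : ∀ u, (P u).card ≤ 2) (hPu : ∀ u, u ∉ P u) (u : X) (a : Fin d) :
    ∃ C ∈ substF N (pvs P z) (ptr P z), (N u a, true) ∈ C ∨ (N u a, false) ∈ C := by
  classical
  have h1 : (insert u (P u)).card ≤ 3 := (card_insert_le _ _).trans (by have := hP u; omega)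
  obtain ⟨b, hb⟩ := exists_lift hE hr1 (insert u (P u))
    ((Nat.mul_le_mul_left _ h1).trans hr) (fun w => if w = u then 0 else 1)
  refine ⟨negClause (Wof N (pvs P z (some u))) b, mem_substF.mpr ⟨some u, b, ?_, rfl⟩, ?_⟩
  · intro hcon
    have h2 := hcon fun w hw => by
      rw [hb w (mem_insert_of_mem hw), if_neg (by rintro rfl; exact hPu _ hw)]
    rw [hb u (mem_insert_self _ _), if_pos rfl] at h2
    exact absurd h2 (by decide)
  · have h3 : N u a ∈ Wof N (pvs P z (some u)) :=
      image_subset_Wof N (mem_insert_self u (P u)) (mem_image_of_mem _ (mem_univ a))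
    have h4 : (N u a, decide (b (N u a) = 0)) ∈ negClause (Wof N (pvs P z (some u))) b :=
      mem_image_of_mem _ h3
    cases hd : decide (b (N u a) = 0)
    · right; rwa [hd] at h4
    · left; rwa [hd] at h4

/-- the substituted formula is unsatisfiable -/
theorem unsat (N : X → Fin d → Y) (P : X → Finset X) (z : X) (ht' : X → ℕ)
    (hht : ∀ u, ∀ w ∈ P u, ht' w < ht' u) : Unsatisfiable (substF N (pvs P z) (ptr P z)) := by
  classical
  intro a
  by_contra hcon
  push Not at hcon
  set β : Y → F2 := fun j => if a j = true then 1 else 0 with hβ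
  have key : ∀ i, ptr P z i (lift N β) := by
    intro i
    by_contra hi
    obtain ⟨l, hl, h1⟩ := hcon _ (mem_substF.mpr ⟨i, β, hi, rfl⟩)
    obtain ⟨j, -, rfl⟩ := mem_image.mp hl
    simp only [hβ] at h1
    cases haj : a j
    · simp [haj] at h1
    · simp [haj] at h1
  have h1 : ∀ n u, ht' u = n → lift N β u = 1 := by
    intro n
    induction n using Nat.strong_induction_on with
    | _ n ih =>
      intro u hu
      exact key (some u) fun w hw => ih (ht' w) (by rw [← hu]; exact hht u w hw) w rfl
  exact key none (h1 _ z rfl)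

end Pool.Agent.J6H94.TSp
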