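import Pool.Agent.J6H94.TSp.Base

/-!
# Short refutations of substituted pebbling formulas
-/

set_option autoImplicit false
set_option linter.unusedSectionVars false

open Finset

namespace Pool.Agent.J6H94.TSp

variable {X Y : Type} [Fintype X] [DecidableEq X] [Fintype Y] [DecidableEq Y] {d : ℕ}

theorem negClause_mono {W W' : Finset Y} (h : W ⊆ W') (β : Y → F2) :
    negClause W β ⊆ negClause W' β := image_subset_image h

theorem negClause_congr {W : Finset Y} {β γ : Y → F2} (h : ∀ j ∈ W, β j = γ j) :
    negClause W β = negClause W γ := by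
  unfold negClause
  refine image_congr fun j hj => ?_
  rw [h j hj]

theorem derivation_of_inputs {F : Finset (Clause Y)} (l : List (Clause Y))
    (h : ∀ C ∈ l, C ∈ F) : IsDerivation F l := by
  induction l with
  | nil => exact IsDerivation.nil
  | cons C l ih =>
    exact IsDerivation.input (h C List.mem_cons_self)
      (ih fun C' hC' => h C' (List.mem_cons_of_mem _ hC'))

theorem derivation_truncate {F : Finset (Clause Y)} {L : List (Clause Y)} (h : IsDerivation F L)
    {C : Clause Y} (hC : C ∈ L) :
    ∃ L', IsDerivation F (C :: L') ∧ (C :: L').length ≤ L.length := by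
  induction h with
  | nil => simp at hC
  | @input D L hD hL ih =>
    rcases List.mem_cons.mp hC with rfl | hC
    · exact ⟨L, IsDerivation.input hD hL, le_rfl⟩
    · obtain ⟨L', h1, h2⟩ := ih hC
      exact ⟨L', h1, h2.trans (by simp)⟩
  | @resolve C₁ C₂ E L h₁ h₂ hres hL ih =>
    rcases List.mem_cons.mp hC with rfl | hC
    · exact ⟨L, IsDerivation.resolve h₁ h₂ hres hL, le_rfl⟩
    · obtain ⟨L', h1, h2⟩ := ih hC
      exact ⟨L', h1, h2.trans (by simp)⟩

theorem subset_of_negClause_insert {B : Finset Y} {j : Y} {β : Y → F2} {b : F2} {C : Clause Y}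
    (hj : j ∉ B) (hC : C ⊆ negClause (insert j B) (Function.update β j b)) {l : Y × Bool}
    (hl : l ∈ C) : l = (j, decide (b = 0)) ∨ l ∈ negClause B β := by
  obtain ⟨i, hi, rfl⟩ := mem_image.mp (hC hl)
  rcases mem_insert.mp hi with rfl | hi
  · left
    rw [Function.update_self]
  · right
    have hij : i ≠ j := fun h' => hj (h' ▸ hi)
    rw [Function.update_of_ne hij]
    exact mem_image_of_mem _ hi

/-- deriving a clause by branching over the variables of `W` -/
theorem branch {F : Finset (Clause Y)} (W : Finset Y) :
    ∀ (B : Finset Y) (β : Y → F2) (L : List (Clause Y)), IsDerivation F L →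
      (∀ γ : Y → F2, (∀ j ∈ B, γ j = β j) → ∃ C ∈ L, C ⊆ negClause (B ∪ W) γ) →
      ∃ L', IsDerivation F (L' ++ L) ∧ L'.length + 1 ≤ 2 ^ W.card ∧
        ∃ C ∈ L' ++ L, C ⊆ negClause B β := by
  induction W using Finset.induction_on with
  | empty =>
    intro B β L hL h
    obtain ⟨C, hC, h1⟩ := h β fun _ _ => rfl
    exact ⟨[], hL, by simp, C, hC, by simpa using h1⟩
  | insert j W hj ih =>
    intro B β L hL h
    have hcard : 2 ^ (insert j W).card = 2 * 2 ^ W.card := by
      rw [card_insert_of_notMem hj, pow_succ]
      ring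
    by_cases hjB : j ∈ B
    · obtain ⟨L', h1, h2, h3⟩ := ih B β L hL fun γ hγ => by
        have := h γ hγ
        rwa [union_insert, insert_eq_of_mem (mem_union_left _ hjB)] at this
      exact ⟨L', h1, by omega, h3⟩
    · have hun : insert j B ∪ W = B ∪ insert j W := by
        rw [insert_union, union_insert]
      obtain ⟨L0, h1, h2, C0, hC0, h3⟩ := ih (insert j B) (Function.update β j 0) L hL
        fun γ hγ => by
          rw [hun]
          refine h γ fun i hi => ?_
          rw [hγ i (mem_insert_of_mem hi), Function.update_of_ne (by rintro rfl; exact hjB hi)]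
      obtain ⟨L1, h4, h5, C1, hC1, h6⟩ := ih (insert j B) (Function.update β j 1) (L0 ++ L) h1
        fun γ hγ => by
          rw [hun]
          obtain ⟨C, hC, hC'⟩ := h γ fun i hi => by
            rw [hγ i (mem_insert_of_mem hi), Function.update_of_ne (by rintro rfl; exact hjB hi)]
          exact ⟨C, List.mem_append_right _ hC, hC'⟩
      by_cases hc0 : (j, true) ∈ C0
      · by_cases hc1 : (j, false) ∈ C1
        · refine ⟨(C0.erase (j, true) ∪ C1.erase (j, false)) :: (L1 ++ L0), ?_, ?_,
            C0.erase (j, true) ∪ C1.erase (j, false), by simp, ?_⟩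
          · rw [List.cons_append, List.append_assoc]
            refine IsDerivation.resolve (C₁ := C0) (C₂ := C1) (List.mem_append_right _ hC0) hC1
              ⟨j, C0.erase (j, true), C1.erase (j, false), notMem_erase _ _, notMem_erase _ _,
                ?_, ?_, rfl⟩ h4
            · rw [insert_erase hc0]
            · rw [insert_erase hc1]
          · rw [List.length_cons, List.length_append]
            omega
          · intro l hl
            rcases mem_union.mp hl with hl | hl
            · obtain ⟨h7, h8⟩ := mem_erase.mp hl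
              rcases subset_of_negClause_insert hjB h3 h8 with h9 | h9
              · exact absurd (by rw [h9]; simp) h7
              · exact h9
            · obtain ⟨h7, h8⟩ := mem_erase.mp hl
              rcases subset_of_negClause_insert hjB h6 h8 with h9 | h9
              · exact absurd (by rw [h9]; simp) h7
              · exact h9
        · refine ⟨L1 ++ L0, ?_, ?_, C1, ?_, ?_⟩
          · rw [List.append_assoc]; exact h4
          · rw [List.length_append]; omega
          · rw [List.append_assoc]; exact hC1
          · intro l hl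
            rcases subset_of_negClause_insert hjB h6 hl with h9 | h9
            · refine absurd hl ?_
              rw [h9]
              simpa using hc1
            · exact h9
      · refine ⟨L0, h1, by omega, C0, hC0, ?_⟩
        intro l hl
        rcases subset_of_negClause_insert hjB h3 hl with h9 | h9
        · refine absurd hl ?_
          rw [h9]
          simpa using hc0
        · exact h9

/-- deriving several clauses -/
theorem branch_all {F : Finset (Clause Y)} (B W : Finset Y) (G : Finset (Clause Y)) :
    ∀ (L : List (Clause Y)), IsDerivation F L →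
      (∀ g ∈ G, ∃ β : Y → F2, g = negClause B β ∧
        ∀ γ : Y → F2, (∀ j ∈ B, γ j = β j) → ∃ C ∈ L, C ⊆ negClause (B ∪ W) γ) →
      ∃ L', IsDerivation F (L' ++ L) ∧ L'.length ≤ G.card * 2 ^ W.card ∧
        ∀ g ∈ G, ∃ C ∈ L' ++ L, C ⊆ g := by
  induction G using Finset.induction_on with
  | empty =>
    intro L hL _
    exact ⟨[], hL, by simp, fun g hg => by simp at hg⟩
  | insert g G hg ih =>
    intro L hL h
    obtain ⟨L1, h1, h2, h3⟩ := ih L hL fun g' hg' => h g' (mem_insert_of_mem hg')
    obtain ⟨β, rfl, hβ⟩ := h g (mem_insert_self _ _)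
    obtain ⟨L2, h4, h5, C, hC, h6⟩ := branch W B β (L1 ++ L) h1 fun γ hγ => by
      obtain ⟨C, hC, hC'⟩ := hβ γ hγ
      exact ⟨C, List.mem_append_right _ hC, hC'⟩
    refine ⟨L2 ++ L1, by rw [List.append_assoc]; exact h4, ?_, ?_⟩
    · rw [List.length_append, card_insert_of_notMem hg, add_mul, one_mul]
      omega
    · intro g' hg'
      rw [List.append_assoc]
      rcases mem_insert.mp hg' with rfl | hg'
      · exact ⟨C, hC, h6⟩
      · obtain ⟨C', hC', h7⟩ := h3 g' hg'
        exact ⟨C', List.mem_append_right _ hC', h7⟩

theorem lift_congr {N : X → Fin d → Y} {u : X} {W : Finset Y} (hW : univ.image (N u) ⊆ W)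
    {β γ : Y → F2} (h : ∀ j ∈ W, β j = γ j) : lift N β u = lift N γ u := by
  unfold lift
  refine sum_congr rfl fun j _ => ?_
  by_cases hj : j ∈ W
  · rw [h j hj]
  · rw [row_eq_zero hW hj, zero_mul, zero_mul]

theorem Wof_mono (N : X → Fin d → Y) {B C : Finset X} (h : B ⊆ C) : Wof N B ⊆ Wof N C :=
  biUnion_subset_biUnion_of_subset_left _ h

theorem image_subset_Wof (N : X → Fin d → Y) {B : Finset X} {u : X} (h : u ∈ B) :
    univ.image (N u) ⊆ Wof N B := fun _ hj => mem_biUnion.mpr ⟨u, h, hj⟩

variable (N : X → Fin d → Y) (P : X → Finset X) (z : X) (ht' : X → ℕ)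

/-- the number of clauses of a substituted formula -/
theorem card_substF_le (hP : ∀ u, (P u).card ≤ 2) :
    (substF N (pvs P z) (ptr P z)).card ≤ (Fintype.card X + 1) * 2 ^ (6 * d) := by
  classical
  unfold substF
  refine card_biUnion_le.trans ?_
  have h1 : ∀ i : Option X, ((univ.filter fun β : Y → F2 => ¬ ptr P z i (lift N β)).image
      (negClause (Wof N (pvs P z i)))).card ≤ 2 ^ (6 * d) := by
    intro i
    have h2 : ((univ.filter fun β : Y → F2 => ¬ ptr P z i (lift N β)).image
      (negClause (Wof N (pvs P z i)))) ⊆ (Wof N (pvs P z i) ×ˢ univ).powerset := by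
      intro C hC
      obtain ⟨β, -, rfl⟩ := mem_image.mp hC
      rw [mem_powerset]
      intro l hl
      obtain ⟨j, hj, rfl⟩ := mem_image.mp hl
      exact mem_product.mpr ⟨hj, mem_univ _⟩
    refine (card_le_card h2).trans ?_
    rw [card_powerset, card_product, card_univ, Fintype.card_bool]
    refine Nat.pow_le_pow_right (by norm_num) ?_
    have h3 := card_Wof_le N (pvs P z i)
    have h4 : (pvs P z i).card ≤ 3 := by
      cases i with
      | none => simp [pvs]
      | some u =>
        have := hP u
        exact (card_insert_le _ _).trans (by omega)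
    have h5 : d * (pvs P z i).card ≤ d * 3 := Nat.mul_le_mul_left _ h4
    omega
  refine (sum_le_sum fun i _ => h1 i).trans ?_
  rw [sum_const, smul_eq_mul, card_univ, Fintype.card_option]

/-- short refutations -/
theorem short_refutation (hP : ∀ u, (P u).card ≤ 2) (hht : ∀ u, ∀ w ∈ P u, ht' w < ht' u) :
    HasRefutationOfSize (substF N (pvs P z) (ptr P z))
      ((Fintype.card X + 1) * 2 ^ (6 * d + 2)) := by
  classical
  set F := substF N (pvs P z) (ptr P z) with hF
  have main : ∀ s : Finset X, (∀ x ∈ s, ∀ w ∈ P x, w ∈ s) →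
      ∃ L, IsDerivation F L ∧ (∀ C ∈ F, C ∈ L) ∧ L.length ≤ F.card + s.card * 2 ^ (4 * d) ∧
        ∀ u ∈ s, ∀ β : Y → F2, lift N β u ≠ 1 → ∃ C ∈ L, C ⊆ negClause (Wof N {u}) β := by
    intro s
    induction s using Finset.induction_on_max_value ht' with
    | empty =>
      intro _
      exact ⟨F.toList, derivation_of_inputs _ fun C hC => mem_toList.mp hC,
        fun C hC => mem_toList.mpr hC, by simp, fun u hu => by simp at hu⟩
    | insert u s hu hmax ih =>
      intro hclosed
      have hs : ∀ x ∈ s, ∀ w ∈ P x, w ∈ s := by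
        intro x hx w hw
        rcases mem_insert.mp (hclosed x (mem_insert_of_mem hx) w hw) with rfl | h
        · exact absurd (hht x w hw) (by have := hmax x hx; omega)
        · exact h
      have hPu : ∀ w ∈ P u, w ∈ s := by
        intro w hw
        rcases mem_insert.mp (hclosed u (mem_insert_self _ _) w hw) with rfl | h
        · exact absurd (hht w w hw) (lt_irrefl _)
        · exact h
      obtain ⟨L, h1, h2, h3, h4⟩ := ih hs
      set G : Finset (Clause Y) := (univ.filter fun β : Y → F2 => lift N β u ≠ 1).image
        (negClause (Wof N {u})) with hG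
      obtain ⟨L', h5, h6, h7⟩ := branch_all (Wof N {u}) (Wof N (P u)) G L h1 fun g hg => by
        obtain ⟨β, hβ, rfl⟩ := mem_image.mp hg
        rw [mem_filter] at hβ
        refine ⟨β, rfl, fun γ hγ => ?_⟩
        have hγu : lift N γ u ≠ 1 := by
          rw [lift_congr (image_subset_Wof N (mem_singleton_self u)) hγ]
          exact hβ.2
        by_cases hall : ∀ w ∈ P u, lift N γ w = 1
        · refine ⟨negClause (Wof N (pvs P z (some u))) γ, h2 _ ?_, ?_⟩
          · rw [hF, mem_substF]
            refine ⟨some u, γ, ?_, rfl⟩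
            intro hcon
            exact hγu (hcon hall)
          · refine negClause_mono ?_ γ
            intro j hj
            obtain ⟨w, hw, hj'⟩ := mem_biUnion.mp hj
            rcases mem_insert.mp hw with rfl | hw
            · exact mem_union_left _ (image_subset_Wof N (mem_singleton_self w) hj')
            · exact mem_union_right _ (image_subset_Wof N hw hj')
        · push Not at hall
          obtain ⟨w, hw, hw1⟩ := hall
          obtain ⟨C, hC, hC'⟩ := h4 w (hPu w hw) γ hw1
          refine ⟨C, hC, hC'.trans (negClause_mono ?_ γ)⟩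
          exact (Wof_mono N (singleton_subset_iff.mpr hw)).trans subset_union_right
      refine ⟨L' ++ L, h5, fun C hC => List.mem_append_right _ (h2 C hC), ?_, ?_⟩
      · have hGc : G.card ≤ 2 ^ (2 * d) := by
          have h8 : G ⊆ (Wof N {u} ×ˢ (univ : Finset Bool)).powerset := by
            intro C hC
            obtain ⟨β, -, rfl⟩ := mem_image.mp hC
            rw [mem_powerset]
            intro l hl
            obtain ⟨j, hj, rfl⟩ := mem_image.mp hl
            exact mem_product.mpr ⟨hj, mem_univ _⟩
          refine (card_le_card h8).trans ?_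
          rw [card_powerset, card_product, card_univ, Fintype.card_bool]
          refine Nat.pow_le_pow_right (by norm_num) ?_
          have h9 := card_Wof_le N {u}
          rw [card_singleton] at h9
          omega
        have hWc : 2 ^ (Wof N (P u)).card ≤ 2 ^ (2 * d) := by
          refine Nat.pow_le_pow_right (by norm_num) ?_
          have h9 := card_Wof_le N (P u)
          have h10 : d * (P u).card ≤ d * 2 := Nat.mul_le_mul_left _ (hP u)
          omega
        have h11 : G.card * 2 ^ (Wof N (P u)).card ≤ 2 ^ (4 * d) := by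
          calc G.card * 2 ^ (Wof N (P u)).card ≤ 2 ^ (2 * d) * 2 ^ (2 * d) :=
                Nat.mul_le_mul hGc hWc
            _ = 2 ^ (4 * d) := by rw [← pow_add]; congr 1; ring
        rw [List.length_append, card_insert_of_notMem hu, add_mul, one_mul]
        omega
      · intro x hx β hβ
        rcases mem_insert.mp hx with rfl | hx
        · obtain ⟨C, hC, hC'⟩ := h7 (negClause (Wof N {x}) β)
            (mem_image.mpr ⟨β, mem_filter.mpr ⟨mem_univ _, hβ⟩, rfl⟩)
          exact ⟨C, hC, hC'⟩
        · obtain ⟨C, hC, hC'⟩ := h4 x hx β hβ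
          exact ⟨C, List.mem_append_right _ hC, hC'⟩
  obtain ⟨L, h1, h2, h3, h4⟩ := main univ fun _ _ w _ => mem_univ w
  obtain ⟨L', h5, h6, C, hC, hC'⟩ := branch (F := F) (Wof N {z}) ∅ 0 L h1 fun γ _ => by
    rw [empty_union]
    by_cases hz : lift N γ z = 1
    · refine ⟨negClause (Wof N (pvs P z none)) γ, h2 _ ?_, Subset.refl _⟩
      rw [hF, mem_substF]
      exact ⟨none, γ, fun hcon => hcon hz, rfl⟩
    · exact h4 z (mem_univ z) γ hz
  have hC0 : C = ∅ := by
    have : negClause (∅ : Finset Y) 0 = ∅ := rfl
    rw [this] at hC'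
    exact subset_empty.mp hC'
  subst hC0
  obtain ⟨L'', h7, h8⟩ := derivation_truncate h5 hC
  refine ⟨L'', h7, h8.trans ?_⟩
  rw [List.length_append]
  have h9 := card_substF_le N P z hP
  rw [← hF] at h9
  have h10 : 2 ^ (Wof N {z}).card ≤ 2 ^ (6 * d) := by
    refine Nat.pow_le_pow_right (by norm_num) ?_
    have h9 := card_Wof_le N {z}
    rw [card_singleton] at h9
    omega
  have h11 : 2 ^ (4 * d) ≤ 2 ^ (6 * d) := Nat.pow_le_pow_right (by norm_num) (by omega)
  have h12 : (univ : Finset X).card * 2 ^ (4 * d) ≤ Fintype.card X * 2 ^ (6 * d) := by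
    rw [card_univ]
    exact Nat.mul_le_mul_left _ h11
  have h13 : (Fintype.card X + 1) * 2 ^ (6 * d + 2) = 4 * ((Fintype.card X + 1) * 2 ^ (6 * d)) := by
    rw [pow_add]; ring
  have h14 : (Fintype.card X + 1) * 2 ^ (6 * d) = Fintype.card X * 2 ^ (6 * d) + 2 ^ (6 * d) := by
    ring
  omega

end Pool.Agent.J6H94.TSp
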