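import Pool.Agent.J6H94.TSp.Dep

/-!
# The lower bound for the total space of substituted formulas

A base formula is given by constraints `tr i`, each depending on the coordinates in `vs i`. If an
adversary can answer `q` queries without violating a constraint, then the substituted formula has no
refutation of small total space: binary search over the configurations.
-/

set_option autoImplicit false
set_option linter.unusedSectionVars false

open Finset

namespace Pool.Agent.J6H94.TSp

variable {X Y ι : Type} [Fintype X] [DecidableEq X] [Fintype Y] [DecidableEq Y] [Fintype ι] {d : ℕ}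

/-- the neighbours of the vertices in `B` -/
def Wof (N : X → Fin d → Y) (B : Finset X) : Finset Y := B.biUnion fun u => univ.image (N u)

theorem card_Wof_le (N : X → Fin d → Y) (B : Finset X) : (Wof N B).card ≤ d * B.card := by
  unfold Wof
  refine card_biUnion_le.trans ?_
  calc ∑ u ∈ B, (univ.image (N u)).card ≤ ∑ _u ∈ B, d :=
        sum_le_sum fun u _ => card_image_le.trans (by simp)
    _ = d * B.card := by rw [sum_const, smul_eq_mul, Nat.mul_comm]

/-- the values of the coordinates `x u` for the assignment `β` -/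
def lift (N : X → Fin d → Y) (β : Y → F2) (u : X) : F2 := row N u ⬝ᵥ β

/-- the clause over `W` falsified by `β` -/
def negClause (W : Finset Y) (β : Y → F2) : Clause Y := W.image fun j => (j, decide (β j = 0))

theorem vars_negClause (W : Finset Y) (β : Y → F2) : vars (negClause W β) = W := by
  unfold vars negClause
  rw [image_image]
  exact image_id

theorem card_negClause_le (W : Finset Y) (β : Y → F2) : (negClause W β).card ≤ W.card :=
  card_image_le

/-- the substituted formula -/
noncomputable def substF (N : X → Fin d → Y) (vs : ι → Finset X) (tr : ι → (X → F2) → Prop) :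
    Finset (Clause Y) :=
  open Classical in
  univ.biUnion fun i : ι =>
    (univ.filter fun β : Y → F2 => ¬ tr i (lift N β)).image (negClause (Wof N (vs i)))

theorem mem_substF {N : X → Fin d → Y} {vs : ι → Finset X} {tr : ι → (X → F2) → Prop}
    {E : Clause Y} : E ∈ substF N vs tr ↔
      ∃ i, ∃ β : Y → F2, ¬ tr i (lift N β) ∧ negClause (Wof N (vs i)) β = E := by
  simp [substF]

variable {N : X → Fin d → Y} {r θ μ : ℕ}

theorem row_eq_zero {u : X} {W : Finset Y} (h : univ.image (N u) ⊆ W) {j : Y} (hj : j ∉ W) :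
    row N u j = 0 := by
  unfold row
  refine sum_eq_zero fun a _ => if_neg ?_
  rintro rfl
  exact hj (h (mem_image_of_mem _ (mem_univ a)))

theorem S_single (u : X) : S N (Pi.single u 1) = row N u := by
  funext j
  rw [S_apply, sum_eq_single u]
  · rw [Pi.single_eq_same, one_mul]
  · intro w _ hw
    rw [Pi.single_eq_of_ne hw, zero_mul]
  · intro h
    exact absurd (mem_univ u) h

theorem valid_axiom (hr1 : 1 ≤ r) {vs : ι → Finset X} {tr : ι → (X → F2) → Prop}
    (hvs : ∀ i x x', (∀ u ∈ vs i, x u = x' u) → tr i x → tr i x') {i : ι} {β : Y → F2}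
    (hβ : ¬ tr i (lift N β)) {x : X → F2} (hx : tr i x) :
    Valid N r x (negClause (Wof N (vs i)) β) := by
  intro a ha
  rw [vars_negClause] at ha ⊢
  by_contra hcon
  have h1 : ∀ j ∈ Wof N (vs i), a j = β j := by
    intro j hj
    by_contra hne
    apply hcon
    refine ⟨(j, decide (β j = 0)), mem_image_of_mem _ hj, hj, ?_⟩
    change a j = tb (decide (β j = 0))
    rcases f2_cases (β j) with h | h <;> rcases f2_cases (a j) with h' | h'
    · rw [h, h'] at hne; exact absurd rfl hne
    · rw [h, h']; simp [tb]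
    · rw [h, h']; simp [tb]
    · rw [h, h'] at hne; exact absurd rfl hne
  apply hβ
  refine hvs i x _ (fun u hu => ?_) hx
  have hsub : univ.image (N u) ⊆ Wof N (vs i) := by
    intro j hj
    exact mem_biUnion.mpr ⟨u, hu, hj⟩
  have h2 : Pi.single u (1 : F2) ∈ K N r (Wof N (vs i)) := by
    refine Submodule.subset_span ⟨?_, fun j hj => ?_⟩
    · have h3 : supp (Pi.single u (1 : F2)) = {u} := by
        ext w
        rw [mem_supp, mem_singleton]
        by_cases hw : w = u
        · subst hw; simp
        · simp [hw]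
      rw [h3, card_singleton]
      exact hr1
    · rw [S_single]
      exact row_eq_zero hsub hj
  have h3 := ha _ h2
  rw [S_single, single_dotProduct, one_mul] at h3
  rw [← h3]
  unfold lift
  refine sum_congr rfl fun j _ => ?_
  by_cases hj : j ∈ Wof N (vs i)
  · rw [h1 j hj]
  · rw [row_eq_zero hsub hj, zero_mul, zero_mul]

/-- an adversary who answers `q` queries -/
structure Adversary (vs : ι → Finset X) (tr : ι → (X → F2) → Prop) (q : ℕ) where
  P : Finset X → (X → F2) → Prop
  init : ∃ ξ, P ∅ ξ
  step : ∀ Ξ ξ, P Ξ ξ → Ξ.card < q → ∀ u, u ∉ Ξ →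
    ∃ ξ', P (insert u Ξ) ξ' ∧ ∀ w ∈ Ξ, ξ' w = ξ w
  sound : ∀ Ξ ξ, P Ξ ξ → Ξ.card ≤ q → ∀ i, vs i ⊆ Ξ → tr i ξ

theorem Adversary.steps {vs : ι → Finset X} {tr : ι → (X → F2) → Prop} {q : ℕ}
    (A : Adversary vs tr q) {Ξ : Finset X} {ξ : X → F2} (h : A.P Ξ ξ) (V : Finset X)
    (hV : Ξ.card + V.card ≤ q) : ∃ ξ', A.P (Ξ ∪ V) ξ' ∧ ∀ w ∈ Ξ, ξ' w = ξ w := by
  induction V using Finset.induction_on with
  | empty => exact ⟨ξ, by rwa [union_empty], fun _ _ => rfl⟩
  | insert u V hu ih =>
    rw [card_insert_of_notMem hu] at hV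
    obtain ⟨ξ', h1, h2⟩ := ih (by omega)
    by_cases h3 : u ∈ Ξ ∪ V
    · refine ⟨ξ', ?_, h2⟩
      rwa [union_insert, insert_eq_of_mem h3]
    · have h4 := card_union_le Ξ V
      obtain ⟨ξ'', h5, h6⟩ := A.step _ _ h1 (by omega) u h3
      refine ⟨ξ'', by rwa [union_insert], fun w hw => ?_⟩
      rw [h6 w (mem_union_left _ hw), h2 w hw]

theorem search (hE : Expands N r) (hr : 100 * (θ + (μ + 1) ^ 2) ≤ r)
    {vs : ι → Finset X} {tr : ι → (X → F2) → Prop}
    (hvs : ∀ i x x', (∀ u ∈ vs i, x u = x' u) → tr i x → tr i x')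
    {c : ℕ} (hc : ∀ i, (vs i).card ≤ c) (hdc : 2 * (d * c) ≤ r)
    {T : ℕ} (hT : T < (θ + 1) * (μ + 1))
    (π : SpaceRefutation (substF N vs tr)) (hπ : ∀ i ≤ π.length, totalSpace (π.conf i) ≤ T)
    {q : ℕ} (A : Adversary vs tr q) (h : ℕ) :
    ∀ (a b : ℕ), a < b → b ≤ π.length → b - a ≤ 2 ^ h → ∀ (Ξ : Finset X) (ξ : X → F2), A.P Ξ ξ →
      Ξ.card + (h * (T + μ * r) + c) ≤ q →
      (∀ ξ', (∀ u ∈ Ξ, ξ' u = ξ u) → Good N r θ (π.conf a) ξ') →
      (∀ ξ', (∀ u ∈ Ξ, ξ' u = ξ u) → ¬ Good N r θ (π.conf b) ξ') → False := by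
  have hμ : 0 < (μ + 1) ^ 2 := by positivity
  have base : ∀ (a b : ℕ), a < b → b ≤ π.length → b - a ≤ 1 → ∀ (Ξ : Finset X) (ξ : X → F2),
      A.P Ξ ξ → Ξ.card + c ≤ q →
      (∀ ξ', (∀ u ∈ Ξ, ξ' u = ξ u) → Good N r θ (π.conf a) ξ') →
      (∀ ξ', (∀ u ∈ Ξ, ξ' u = ξ u) → ¬ Good N r θ (π.conf b) ξ') → False := by
    intro a b hab hb hab1 Ξ ξ hP hq hga hgb
    obtain rfl : b = a + 1 := by omega
    have hTa : totalSpace (π.conf a) < (θ + 1) * (μ + 1) :=
      lt_of_le_of_lt (hπ a (by omega)) hT
    rcases π.step a (by omega) with ⟨C, hC, h1⟩ | ⟨C₁, hC₁, C₂, hC₂, E, hres, h1⟩ | h1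
    · rw [mem_substF] at hC
      obtain ⟨i, β, hβ, rfl⟩ := hC
      obtain ⟨ξ', h2, h3⟩ := A.steps hP (vs i) (by have := hc i; omega)
      have h4 : tr i ξ' := A.sound _ _ h2 ((card_union_le _ _).trans (by have := hc i; omega)) i
        subset_union_right
      refine hgb ξ' h3 ?_
      rw [h1]
      refine good_insert_valid (hga ξ' h3) ?_
      intro hbad
      rcases hbad with hbad | hbad
      · rw [vars_negClause] at hbad
        have h5 := card_Wof_le N (vs i)
        have h6 : d * (vs i).card ≤ d * c := Nat.mul_le_mul_left _ (hc i)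
        omega
      · exact hbad (valid_axiom (by omega) hvs hβ h4)
    · refine hgb ξ (fun _ _ => rfl) ?_
      rw [h1]
      exact good_insert_resolvent hE hr hTa (hga ξ fun _ _ => rfl) hC₁ hC₂ hres
    · exact hgb ξ (fun _ _ => rfl) (good_mono h1 (hga ξ fun _ _ => rfl))
  induction h with
  | zero =>
    intro a b hab hb hab1 Ξ ξ hP hq hga hgb
    exact base a b hab hb (by simpa using hab1) Ξ ξ hP (by omega) hga hgb
  | succ h ih =>
    intro a b hab hb hab1 Ξ ξ hP hq hga hgb
    by_cases h1 : b - a ≤ 1
    · exact base a b hab hb h1 Ξ ξ hP (by omega) hga hgb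
    · have h2 : (h + 1) * (T + μ * r) = h * (T + μ * r) + (T + μ * r) := by ring
      rw [pow_succ] at hab1
      set m := (a + b) / 2 with hm
      have ham : a < m := by omega
      have hmb : m < b := by omega
      have hTm : totalSpace (π.conf m) < (θ + 1) * (μ + 1) :=
        lt_of_le_of_lt (hπ m (by omega)) hT
      have hV : (Vset N r θ μ (π.conf m)).card ≤ T + μ * r :=
        (card_Vset hE hr hTm).trans (Nat.add_le_add_right (hπ m (by omega)) _)
      obtain ⟨ξ', h3, h4⟩ := A.steps hP (Vset N r θ μ (π.conf m)) (by omega)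
      have h5 := card_union_le Ξ (Vset N r θ μ (π.conf m))
      have hagree : ∀ ξ'' : X → F2, (∀ u ∈ Ξ ∪ Vset N r θ μ (π.conf m), ξ'' u = ξ' u) →
          ∀ u ∈ Ξ, ξ'' u = ξ u := by
        intro ξ'' h6 u hu
        rw [h6 u (mem_union_left _ hu), h4 u hu]
      by_cases hg : Good N r θ (π.conf m) ξ'
      · refine ih m b hmb hb (by omega) _ ξ' h3 (by omega) ?_ ?_
        · intro ξ'' h6
          exact good_world hE hr hTm (fun u hu => (h6 u (mem_union_right _ hu)).symm) hg
        · intro ξ'' h6
          exact hgb ξ'' (hagree ξ'' h6)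
      · refine ih a m ham (by omega) (by omega) _ ξ' h3 (by omega) ?_ ?_
        · intro ξ'' h6
          exact hga ξ'' (hagree ξ'' h6)
        · intro ξ'' h6 hg'
          exact hg (good_world hE hr hTm (fun u hu => h6 u (mem_union_right _ hu)) hg')

section count

/-- the sets of at most `m` elements are few -/
theorem card_small_sets {α : Type} [Fintype α] [DecidableEq α] (m : ℕ)
    (A : Finset (Finset α)) (hA : ∀ M ∈ A, M.card ≤ m) :
    A.card ≤ (Fintype.card α + 1) ^ m := by
  classical
  have hex : ∀ M ∈ A, ∃ f : Fin m → Option α, ∀ D, D ∈ M ↔ ∃ i, f i = some D := by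
    intro M hM
    let e := M.equivFin
    refine ⟨fun i => if h : i.1 < M.card then some (e.symm ⟨i.1, h⟩).1 else none, fun D => ?_⟩
    constructor
    · intro hD
      refine ⟨⟨(e ⟨D, hD⟩).1, lt_of_lt_of_le (e ⟨D, hD⟩).2 (hA M hM)⟩, ?_⟩
      simp
    · rintro ⟨i, hi⟩
      simp only at hi
      by_cases h : i.1 < M.card
      · rw [dif_pos h] at hi
        rw [← Option.some.inj hi]
        exact (e.symm ⟨i.1, h⟩).2
      · rw [dif_neg h] at hi
        simp at hi
  choose! f hf using hex
  have hinj : Set.InjOn f A := by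
    intro M hM M' hM' h
    ext D
    rw [hf M hM, hf M' hM', h]
  calc A.card = (A.image f).card := (card_image_of_injOn hinj).symm
    _ ≤ Fintype.card (Fin m → Option α) := card_le_univ _
    _ = (Fintype.card α + 1) ^ m := by
      rw [Fintype.card_fun, Fintype.card_option, Fintype.card_fin]

theorem card_le_totalSpace (M : Finset (Clause Y)) : M.card ≤ totalSpace M + 1 := by
  have h1 : (M.erase ∅).card * 1 ≤ totalSpace M :=
    card_mul_le_space _ (erase_subset _ _) fun D hD => by
      rw [Nat.succ_le_iff, card_pos]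
      exact nonempty_iff_ne_empty.mpr (mem_erase.mp hD).1
  have h2 := pred_card_le_card_erase (s := M) (a := ∅)
  omega

theorem card_configs (T : ℕ) (A : Finset (Finset (Clause Y))) (hA : ∀ M ∈ A, totalSpace M ≤ T) :
    A.card ≤ 2 ^ ((2 * Fintype.card Y + 1) * (T + 1)) := by
  have h1 := card_small_sets (T + 1) A fun M hM =>
    (card_le_totalSpace M).trans (Nat.add_le_add_right (hA M hM) 1)
  refine h1.trans ?_
  rw [pow_mul]
  refine Nat.pow_le_pow_left ?_ _
  rw [Fintype.card_finset, Fintype.card_prod, Fintype.card_bool, pow_succ, Nat.mul_comm _ 2]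
  have : 1 ≤ 2 ^ (2 * Fintype.card Y) := Nat.one_le_two_pow
  omega

end count

/-- a shortest refutation of given space is not too long -/
theorem exists_short {F : Finset (Clause Y)} {T : ℕ} (π : SpaceRefutation F) (hπ : π.space ≤ T) :
    ∃ π' : SpaceRefutation F, (∀ i ≤ π'.length, totalSpace (π'.conf i) ≤ T) ∧
      π'.length < 2 ^ ((2 * Fintype.card Y + 1) * (T + 1)) := by
  classical
  have hex : ∃ ℓ, ∃ π' : SpaceRefutation F, π'.length = ℓ ∧
      ∀ i ≤ π'.length, totalSpace (π'.conf i) ≤ T := by
    refine ⟨π.length, π, rfl, fun i hi => le_trans ?_ hπ⟩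
    exact le_sup (f := fun i => totalSpace (π.conf i)) (mem_range.mpr (by omega))
  obtain ⟨π', hlen, hsp⟩ := Nat.find_spec hex
  refine ⟨π', hsp, ?_⟩
  have hinj : Set.InjOn π'.conf (range (π'.length + 1)) := by
    have key : ∀ i j, i < j → j ≤ π'.length → π'.conf i ≠ π'.conf j := by
      intro i j hij hj heq
      have hnew : ∃ π'' : SpaceRefutation F, π''.length = π'.length - (j - i) ∧
          ∀ k ≤ π''.length, totalSpace (π''.conf k) ≤ T := by
        refine ⟨⟨π'.length - (j - i), fun k => if k ≤ i then π'.conf k else π'.conf (k + (j - i)),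
          ?_, ?_, ?_⟩, rfl, ?_⟩
        · rw [if_pos (Nat.zero_le _)]
          exact π'.conf_zero
        · intro k hk
          by_cases h1 : k + 1 ≤ i
          · rw [if_pos (by omega), if_pos h1]
            exact π'.step k (by omega)
          · by_cases h2 : k ≤ i
            · obtain rfl : k = i := by omega
              rw [if_pos h2, if_neg h1, heq]
              have : k + 1 + (j - k) = j + 1 := by omega
              rw [this]
              exact π'.step j (by omega)
            · rw [if_neg h2, if_neg h1]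
              have : k + 1 + (j - i) = k + (j - i) + 1 := by omega
              rw [this]
              exact π'.step _ (by omega)
        · by_cases h1 : π'.length - (j - i) ≤ i
          · rw [if_pos h1]
            have h2 : π'.length - (j - i) = i := by omega
            rw [h2, heq]
            have h3 : j = π'.length := by omega
            rw [h3]
            exact π'.bot_mem
          · rw [if_neg h1]
            have : π'.length - (j - i) + (j - i) = π'.length := by omega
            rw [this]
            exact π'.bot_mem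
        · intro k hk
          change k ≤ π'.length - (j - i) at hk
          change totalSpace (if k ≤ i then π'.conf k else π'.conf (k + (j - i))) ≤ T
          split_ifs with h1
          · exact hsp k (by omega)
          · exact hsp _ (by omega)
      have := Nat.find_min' hex hnew
      omega
    intro i hi j hj heq
    rw [coe_range, Set.mem_Iio] at hi hj
    rcases lt_trichotomy i j with h | h | h
    · exact absurd heq (key i j h (by omega))
    · exact h
    · exact absurd heq.symm (key j i h (by omega))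
  have h1 : ((range (π'.length + 1)).image π'.conf).card = π'.length + 1 := by
    rw [card_image_of_injOn hinj, card_range]
  have h2 := card_configs T ((range (π'.length + 1)).image π'.conf) (by
    intro M hM
    obtain ⟨i, hi, rfl⟩ := mem_image.mp hM
    exact hsp i (by have := mem_range.mp hi; omega))
  omega

/-- the lower bound -/
theorem lower_bound (hE : Expands N r) (hr : 100 * (θ + (μ + 1) ^ 2) ≤ r)
    {vs : ι → Finset X} {tr : ι → (X → F2) → Prop}
    (hvs : ∀ i x x', (∀ u ∈ vs i, x u = x' u) → tr i x → tr i x')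
    {c : ℕ} (hc : ∀ i, (vs i).card ≤ c) (hdc : 2 * (d * c) ≤ r)
    {T : ℕ} (hT : T < (θ + 1) * (μ + 1)) {q : ℕ}
    (hq : (2 * Fintype.card Y + 1) * (T + 1) * (T + μ * r) + c ≤ q)
    (A : Adversary vs tr q) (π : SpaceRefutation (substF N vs tr)) : T < π.space := by
  by_contra hcon
  push Not at hcon
  obtain ⟨π', h1, h2⟩ := exists_short π hcon
  obtain ⟨ξ, hξ⟩ := A.init
  have hpos : 0 < π'.length := by
    rcases Nat.eq_zero_or_pos π'.length with h | h
    · have h3 := π'.bot_mem
      rw [h, π'.conf_zero] at h3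
      simp at h3
    · exact h
  refine search hE hr hvs hc hdc hT π' h1 A ((2 * Fintype.card Y + 1) * (T + 1)) 0 π'.length hpos
    le_rfl (by omega) ∅ ξ hξ (by simpa using hq) ?_ ?_
  · intro ξ' _
    rw [π'.conf_zero]
    exact good_empty ξ'
  · intro ξ' _
    exact not_good_of_bot hE π'.bot_mem ξ'

end Pool.Agent.J6H94.TSp
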